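import Pool.Agent.Lib.H88U.A8
import Pool.Agent.Lib.HUK.A11

/-!
# Uniform module A, chunk A11: `A11_one` with an explicit exponent
-/

open Finset

namespace Pool.Agent.Lib.H88U

open Pool.Agent.HUK
open Pool.Agent.H44W (ee)
open Pool.Agent.Lib.H84V (nd)
open Pool.Agent.H16U (AV)

private theorem a11_num (r R C0 C8 C3 m b p : ℕ) (hrR : r < R) (hR : 4 ≤ R) (hC0 : C0 ≤ 16 * R ^ 3)
    (hC8 : C8 = (2 * r + 2) * C0 + r * R + R) (hm : m = 13 * R + r + 4) (hb : b = 8 + r + R) (hp : p = 13 * R + r + 1)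
    (hC3 : C3 = m * C8 + (b + 2 * p)) : C3 + 20 ≤ 512 * R ^ 5 := by
  have h1 : (2 * r + 2) * C0 ≤ 2 * R * (16 * R ^ 3) := Nat.mul_le_mul (by omega) hC0
  have h2 : r * R + R = (r + 1) * R := by ring
  have h3 : (r + 1) * R ≤ R * R := Nat.mul_le_mul_right _ (by omega)
  have h4 : R * R ≤ R ^ 4 := by
    calc R * R = R ^ 2 := by ring
      _ ≤ R ^ 4 := Nat.pow_le_pow_right (by omega) (by norm_num)
  have h5 : C8 ≤ 33 * R ^ 4 := by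
    have h6 : 2 * R * (16 * R ^ 3) = 32 * R ^ 4 := by ring
    omega
  have h6 : m ≤ 15 * R := by omega
  have h7 : m * C8 ≤ 15 * R * (33 * R ^ 4) := Nat.mul_le_mul h6 h5
  have h8 : 15 * R * (33 * R ^ 4) = 495 * R ^ 5 := by ring
  have h9 : 16 * R ≤ R ^ 3 := by
    calc 16 * R ≤ R * R * R := Nat.mul_le_mul_right _ (Nat.mul_le_mul hR hR)
      _ = R ^ 3 := by ring
  have h10 : 16 * R ^ 3 ≤ R ^ 5 := by
    calc 16 * R ^ 3 ≤ (R * R) * R ^ 3 := Nat.mul_le_mul_right _ (Nat.mul_le_mul hR hR)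
      _ = R ^ 5 := by ring
  omega

/-- `A11_one` with an explicit exponent. -/
theorem A11_one (n C0 : ℕ) (hn : 1 ≤ n) (hV : AV (2 ^ (2 ^ n) - 1) C0) (hC0 : C0 ≤ 16 * (2 ^ 2 ^ n) ^ 3) :
    ∃ C : ℕ, C ≤ 512 * (2 ^ 2 ^ n) ^ 5 ∧ ∀ δ : ℝ, 0 < δ → δ ≤ 1 / 2 → ∀ X K H : ℕ, (1 / δ) ^ C ≤ K →
    (1 / δ) ^ C * (K : ℝ) ^ (2 ^ 2 ^ n) ≤ X → δ * X ≤ K * H → 16 * n * K * H ≤ X → 1 ≤ H → ∀ 𝒜 : Finset ℕ, 𝒜 ⊆ Ioc K (2 * K) →
    ∀ f : ℤ → ℂ, Bdd X f → ∀ t : Fin n → ℤ, (∀ i, |t i| ≤ H) →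
    δ * (H * ((K : ℝ) * X) ^ 2) ≤ ∑ m ∈ Ioo (-(H : ℤ)) H, ‖∑ a ∈ 𝒜, ∑ y ∈ Ico (-(X : ℤ)) X,
      DV (fun i => (a : ℤ) * t i) f y * (starRingEnd ℂ) (DV (fun i => (a : ℤ) * t i) f (y + a * m))‖ ^ 2 →
    ∃ q : ℕ, 1 ≤ q ∧ (q : ℝ) ≤ (1 / δ) ^ C ∧ 1 ≤ ⌊δ ^ C * H⌋₊ ∧
      δ ^ C * (K * X) ≤ ∑ a ∈ 𝒜, TQ X ⌊δ ^ C * H⌋₊ (a * q) 0 (DV (fun i => (a : ℤ) * t i) f) := by
  classical
  obtain ⟨C8, hC8e, hC8⟩ := A8_major (2 ^ n) C0 hV
  obtain ⟨r, hr⟩ : ∃ r, r = 2 ^ n := ⟨_, rfl⟩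
  rw [← hr] at hC8 hC8e hC0 ⊢
  obtain ⟨R, hR⟩ : ∃ R, R = 2 ^ r := ⟨_, rfl⟩
  rw [← hR] at hC8 hC8e hC0 ⊢
  have hr2 : 2 ≤ r := by
    rw [hr]
    calc 2 = 2 ^ 1 := by norm_num
      _ ≤ 2 ^ n := Nat.pow_le_pow_right (by norm_num) hn
  have hR4 : 4 ≤ R := by
    rw [hR]
    calc 4 = 2 ^ 2 := by norm_num
      _ ≤ 2 ^ r := Nat.pow_le_pow_right (by norm_num) hr2
  obtain ⟨p, hp⟩ : ∃ p, p = 13 * R + r + 1 := ⟨_, rfl⟩
  obtain ⟨m, hm⟩ : ∃ m, m = 13 * R + r + 4 := ⟨_, rfl⟩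
  obtain ⟨b, hb⟩ : ∃ b, b = 8 + r + R := ⟨_, rfl⟩
  obtain ⟨C3, hC3⟩ : ∃ C3, C3 = m * C8 + (b + 2 * p) := ⟨_, rfl⟩
  refine ⟨C3 + 20, a11_num r R C0 C8 C3 m b p (by rw [hR]; exact Nat.lt_two_pow_self) hR4 hC0 hC8e hm hb hp hC3, ?_⟩
  intro δ hδ hδ1 X K H hKC hXC hδX hKH hH 𝒜 h𝒜 f hf t ht h
  obtain ⟨D, hD⟩ : ∃ D, D = 1 / δ := ⟨_, rfl⟩
  rw [← hD] at hKC hXC ⊢
  have hδ1' : δ ≤ 1 := by linarith
  have hD2 : 2 ≤ D := by
    rw [hD, le_div_iff₀ hδ]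
    linarith
  have hD1 : 1 ≤ D := by linarith
  have hD0 : 0 < D := by linarith
  have hDδ : D * δ = 1 := by rw [hD]; field_simp
  have hDδp : ∀ e : ℕ, D ^ e * δ ^ e = 1 := fun e => by rw [← mul_pow, hDδ, one_pow]
  have hDle : ∀ {e e' : ℕ}, e ≤ e' → D ^ e ≤ D ^ e' := fun he => pow_le_pow_right₀ hD1 he
  have hδle : ∀ {e e' : ℕ}, e ≤ e' → δ ^ e' ≤ δ ^ e := fun he => pow_le_pow_of_le_one hδ.le hδ1' he
  have hδ2 : ∀ e : ℕ, δ ^ e ≤ 1 / 2 ^ e := fun e => by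
    rw [← one_div_pow]
    exact pow_le_pow_left₀ hδ.le hδ1 e
  have hH' : (0 : ℝ) < H := by exact_mod_cast hH
  have hK' : (1 : ℝ) ≤ K := (one_le_pow₀ hD1).trans hKC
  have hK0 : (0 : ℝ) < K := by linarith
  have hK : 1 ≤ K := by exact_mod_cast hK'
  have hX' : (1 : ℝ) ≤ X := by
    refine le_trans ?_ hXC
    calc (1 : ℝ) = 1 * 1 := by ring
      _ ≤ D ^ (C3 + 20) * (K : ℝ) ^ R := mul_le_mul (one_le_pow₀ hD1) (one_le_pow₀ hK') (by norm_num) (by positivity)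
  have hX0 : (0 : ℝ) < X := by linarith
  have hX : 1 ≤ X := by exact_mod_cast hX'
  have hnKH : 16 * (K * H) ≤ X := by
    calc 16 * (K * H) = 16 * 1 * K * H := by ring
      _ ≤ 16 * n * K * H := by gcongr
      _ ≤ X := hKH
  have hbig : (K : ℝ) ^ R * D ^ (C3 + 19) ≤ K * H := by
    refine le_trans ?_ hδX
    have h1 : δ * (D ^ (C3 + 20) * (K : ℝ) ^ R) ≤ δ * X := mul_le_mul_of_nonneg_left hXC hδ.le
    refine le_trans (le_of_eq ?_) h1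
    rw [pow_succ D (C3 + 19)]
    linear_combination -((K : ℝ) ^ R * D ^ (C3 + 19)) * hDδ
  have hbige : ∀ {e : ℕ}, e ≤ C3 + 19 → (K : ℝ) ^ R * D ^ e ≤ K * H := fun he =>
    (mul_le_mul_of_nonneg_left (hDle he) (by positivity)).trans hbig
  -- frequency
  have hg : ∀ a ∈ 𝒜, Bdd X (DV (fun i => (a : ℤ) * t i) f) := fun a _ => Bdd_DV hf _
  have hcardK : (𝒜.card : ℝ) ≤ K := by
    have h4 := Finset.card_le_card h𝒜
    rw [Nat.card_Ioc] at h4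
    have : 𝒜.card ≤ K := by omega
    exact_mod_cast this
  have hcard := A11_card X K H hX hH δ hδ hδ1 𝒜 (fun a => DV (fun i => (a : ℤ) * t i) f) hg h
  obtain ⟨ψ, hψ⟩ := A1_freq X H hH 𝒜 (fun a ha => by
      have h1 := mem_Ioc.mp (h𝒜 ha)
      refine ⟨by omega, ?_⟩
      calc 4 * a * H ≤ 4 * (2 * K) * H := by gcongr; exact h1.2
        _ ≤ X := by nlinarith) (fun a => DV (fun i => (a : ℤ) * t i) f) hg δ hδ.le (by
      refine le_trans ?_ h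
      rw [mul_assoc]
      refine mul_le_mul_of_nonneg_left (mul_le_mul_of_nonneg_left ?_ hH'.le) hδ.le
      refine pow_le_pow_left₀ (by positivity) (mul_le_mul_of_nonneg_right hcardK hX0.le) 2)
  have hψ2 : δ ^ 2 / 64 * (K * X) ≤ ∑ a ∈ 𝒜, TQ X (2 * H) a ψ (DV (fun i => (a : ℤ) * t i) f) := by
    refine le_trans ?_ hψ
    have h1 : δ / 16 * X * (δ / 4 * K) ≤ δ / 16 * X * 𝒜.card := mul_le_mul_of_nonneg_left hcard (by positivity)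
    nlinarith
  -- weights
  obtain ⟨c, hc, hsum⟩ := A11_wt X K H hH (by nlinarith) 𝒜 h𝒜 ψ (fun a => DV (fun i => a * t i) f) hg
  have e : Fin (2 ^ n) ≃ (Fin n → Bool) := Fintype.equivOfCardEq (by simp)
  have hTQ0 : 0 ≤ ∑ a ∈ 𝒜, TQ X (2 * H) a ψ (DV (fun i => (a : ℤ) * t i) f) := le_trans (by positivity) hψ2
  have h3 := A3_elim n X K H K hX hK hK le_rfl (by nlinarith [Nat.zero_le (n * K * H)]) ψ c hc t ht e f hf (δ ^ 8) (by positivity) (by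
    rw [hsum, Complex.norm_real, Real.norm_of_nonneg hTQ0]
    refine le_trans ?_ hψ2
    refine mul_le_mul_of_nonneg_right ?_ (by positivity)
    have h1 := hδ2 6
    have h2 : δ ^ 8 = δ ^ 2 * δ ^ 6 := by ring
    rw [h2]
    norm_num at h1 ⊢
    nlinarith [pow_pos hδ 2])
  obtain ⟨u, hu⟩ : ∃ u, u = δ ^ (13 * R) := ⟨_, rfl⟩
  have hu0 : 0 < u := by rw [hu]; positivity
  have huR : u ≤ (δ ^ 8 / 32) ^ R := by
    rw [hu, pow_mul]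
    refine pow_le_pow_left₀ (by positivity) ?_ R
    have h1 := hδ2 5
    have h2 : δ ^ 13 = δ ^ 8 * δ ^ 5 := by ring
    rw [h2]
    norm_num at h1 ⊢
    nlinarith [pow_pos hδ 8]
  subst hr
  rw [← hR] at h3
  have hcount := A11_many (2 ^ n) K X hX u hu0
    (fun p : (Fin (2 ^ n) → ℤ) × ℤ => ‖∑ z ∈ Ico (-(3 * X : ℤ)) (3 * X), DL (List.ofFn fun i => (-(p.1 i * ws t (e i)), p.1 i)) c (z, p.2)‖)
    (fun p => by
      refine (norm_sum_le _ _).trans ?_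
      refine (Finset.sum_le_sum fun z _ => DL_norm _ c hc.le (z, p.2)).trans ?_
      rw [Finset.sum_const, Int.card_Ico, nsmul_eq_mul, mul_one]
      have : (3 * (X : ℤ) - -(3 * (X : ℤ))).toNat = 6 * X := by omega
      rw [this]
      push_cast
      exact le_refl _) (by
      rw [Finset.sum_product]
      refine le_trans (mul_le_mul_of_nonneg_right huR (by positivity)) h3)
  have hsub : ((bxS (2 ^ n) K ×ˢ Ioc (K : ℤ) (2 * K)).filter fun x : (Fin (2 ^ n) → ℤ) × ℤ => u / 2 ^ (2 ^ n + 1) * X ≤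
      ‖∑ z ∈ Ico (-(3 * X : ℤ)) (3 * X), DL (List.ofFn fun i => (-(x.1 i * ws t (e i)), x.1 i)) c (z, x.2)‖) ⊆
      (bxS (2 ^ n) K ×ˢ Ioc (K : ℤ) (2 * K)).filter fun x : (Fin (2 ^ n) → ℤ) × ℤ =>
        Vt K (List.ofFn x.1) x.2 ∧ nd (ψ * Df (List.ofFn x.1) x.2) ≤ D ^ (b + 2 * p) * (K : ℝ) ^ R / (K * H) := by
    intro x hx
    rw [mem_filter] at hx ⊢
    refine ⟨hx.1, ?_⟩
    have h4 := A11_pair (2 ^ n) X K H hX hK hH (by omega) δ hδ hδ1 p (by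
        rw [← hD, ← hR, ← hb]
        exact hbige (by omega)) ψ c hc x.1 (fun i => -(x.1 i * ws t (e i))) x.2 (by
        refine le_trans (mul_le_mul_of_nonneg_right ?_ hX0.le) hx.2
        rw [hp, show 13 * R + 2 ^ n + 1 = 13 * R + (2 ^ n + 1) by ring, pow_add, hu, div_eq_mul_one_div]
        exact mul_le_mul_of_nonneg_left (hδ2 _) (by positivity))
    rw [← hD, ← hR, ← hb] at h4
    exact h4
  have hcount2 := hcount.trans (Nat.cast_le.mpr (Finset.card_le_card hsub))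
  have hKR : (K : ℝ) ^ R = K * (K : ℝ) ^ (R - 1) := by
    rw [← pow_succ']
    congr 1
    omega
  have hDm : 1 / δ ^ m = D ^ m := by rw [hD, one_div_pow]
  obtain ⟨q, hq1, hqC, hq⟩ := hC8 (δ ^ m) (by positivity) ((hδle (by omega : 1 ≤ m)).trans (by rw [pow_one]; exact hδ1)) K K
    (by
      rw [hDm, ← pow_mul]
      exact (hDle (by omega)).trans hKC)
    (mul_le_of_le_one_left hK0.le (pow_le_one₀ hδ.le hδ1')) le_rfl ψ (D ^ (b + 2 * p) * (K : ℝ) ^ R / (K * H)) (by positivity)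
    (by
      rw [div_le_iff₀ (by positivity), ← pow_mul]
      have h5 := mul_le_mul_of_nonneg_left (hbige (show b + 2 * p + m * C8 ≤ C3 + 19 by omega)) (pow_nonneg hδ.le (m * C8))
      refine le_trans (le_of_eq ?_) h5
      rw [pow_add D]
      linear_combination -(D ^ (b + 2 * p) * (K : ℝ) ^ R) * hDδp (m * C8))
    (by
      refine le_trans (mul_le_mul_of_nonneg_right ?_ (by positivity)) hcount2
      rw [hm, show 13 * R + 2 ^ n + 4 = 13 * R + (2 ^ n + 4) by ring, pow_add, hu, div_eq_mul_one_div]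
      refine mul_le_mul_of_nonneg_left ?_ (by positivity)
      refine (hδle (by omega : 4 ≤ 2 ^ n + 4)).trans ((hδ2 4).trans (by norm_num)))
  rw [hDm, ← pow_mul] at hqC hq
  have hqψ : nd (q * ψ) ≤ D ^ C3 / H := by
    refine hq.trans (le_of_eq ?_)
    rw [hC3, pow_add D (m * C8), hKR]
    have hKR1 : (K : ℝ) ^ (R - 1) ≠ 0 := by positivity
    field_simp
  have hfl : (⌊δ ^ (C3 + 20) * H⌋₊ : ℝ) ≤ δ ^ (C3 + 20) * H := Nat.floor_le (by positivity)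
  have hfl1 : 1 ≤ ⌊δ ^ (C3 + 20) * (H : ℝ)⌋₊ := by
    rw [Nat.one_le_floor_iff]
    have h6 : (K : ℝ) * D ^ (C3 + 20) ≤ K * H := by
      refine le_trans ?_ (hbige (Nat.zero_le _))
      rw [pow_zero, mul_one, hKR]
      refine mul_le_mul_of_nonneg_left (hKC.trans ?_) hK0.le
      calc (K : ℝ) = (K : ℝ) ^ 1 := (pow_one _).symm
        _ ≤ (K : ℝ) ^ (R - 1) := pow_le_pow_right₀ hK' (by omega)
    have h7 : D ^ (C3 + 20) ≤ H := le_of_mul_le_mul_left h6 hK0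
    have h8 := mul_le_mul_of_nonneg_left h7 (pow_nonneg hδ.le (C3 + 20))
    rw [mul_comm (δ ^ (C3 + 20)) (D ^ (C3 + 20)), hDδp] at h8
    exact h8
  refine ⟨q, hq1, hqC.trans (hDle (by omega)), hfl1, ?_⟩
  have he1 : (q : ℝ) * ⌊δ ^ (C3 + 20) * H⌋₊ / H ≤ δ ^ 20 := by
    rw [div_le_iff₀ hH']
    calc (q : ℝ) * ⌊δ ^ (C3 + 20) * H⌋₊ ≤ D ^ (m * C8) * (δ ^ (C3 + 20) * H) :=
          mul_le_mul hqC hfl (by positivity) (by positivity)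
      _ ≤ D ^ C3 * (δ ^ (C3 + 20) * H) := mul_le_mul_of_nonneg_right (hDle (by omega)) (by positivity)
      _ = δ ^ 20 * H := by
          rw [pow_add δ]
          linear_combination (δ ^ 20 * H) * hDδp C3
  have he2 : (⌊δ ^ (C3 + 20) * H⌋₊ : ℝ) * nd (q * ψ) ≤ δ ^ 20 := by
    calc (⌊δ ^ (C3 + 20) * H⌋₊ : ℝ) * nd (q * ψ) ≤ (δ ^ (C3 + 20) * H) * (D ^ C3 / H) :=
          mul_le_mul hfl hqψ (Pool.Agent.Lib.H84V.nd_nonneg _) (by positivity)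
      _ = D ^ C3 * δ ^ C3 * δ ^ 20 := by
          rw [pow_add δ]
          field_simp
      _ = δ ^ 20 := by rw [hDδp, one_mul]
  have hqM : q * ⌊δ ^ (C3 + 20) * (H : ℝ)⌋₊ ≤ H := by
    have h9 : (q : ℝ) * ⌊δ ^ (C3 + 20) * H⌋₊ ≤ H := by
      rw [div_le_iff₀ hH'] at he1
      refine he1.trans ?_
      exact mul_le_of_le_one_left hH'.le (pow_le_one₀ hδ.le hδ1')
    exact_mod_cast h9
  have hend := A11_end X K H ⌊δ ^ (C3 + 20) * (H : ℝ)⌋₊ q hX hH hfl1 hq1 (by nlinarith) hqM δ hδ hδ1 ψ 𝒜 h𝒜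
    (fun a => DV (fun i => (a : ℤ) * t i) f) hg he1 he2 hψ2
  refine le_trans (mul_le_mul_of_nonneg_right (hδle (by omega)) (by positivity)) hend

end Pool.Agent.Lib.H88U
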