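import Pool.Agent.Lib.H88U.A11
import Pool.Agent.Lib.HUK.A12

/-!
# Uniform module A, chunk A12: `A12_all` with an explicit exponent
-/

open Finset

namespace Pool.Agent.Lib.H88U

open Pool.Agent.HUK
open Pool.Agent.H16U (AV)

private theorem a12_num (n C : ℕ) (hn : 1 ≤ n) (hC : C ≤ 512 * (2 ^ 2 ^ n) ^ 5) :
    (n + 2) * C + (2 * ((n + 2) * C) + 3 * n + 14) ≤ 2048 * (2 ^ 2 ^ n) ^ 6 := by
  obtain ⟨R, hR⟩ : ∃ R, R = 2 ^ 2 ^ n := ⟨_, rfl⟩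
  rw [← hR] at hC ⊢
  have h1 : n < 2 ^ n := Nat.lt_two_pow_self
  have h2 : 2 ^ n < R := by
    rw [hR]
    exact Nat.lt_two_pow_self
  have h3 : n + 2 ≤ R := by omega
  have h4 : 1 ≤ R := by omega
  have h5 : (n + 2) * C ≤ R * (512 * R ^ 5) := Nat.mul_le_mul h3 hC
  have h6 : R * (512 * R ^ 5) = 512 * R ^ 6 := by ring
  have h7 : R ≤ R ^ 6 := by
    calc R = R ^ 1 := (pow_one R).symm
      _ ≤ R ^ 6 := Nat.pow_le_pow_right h4 (by norm_num)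
  omega

/-- `A12_all` with an explicit exponent. -/
theorem A12_all (n C0 : ℕ) (hn : 1 ≤ n) (hV : AV (2 ^ (2 ^ n) - 1) C0) (hC0 : C0 ≤ 16 * (2 ^ 2 ^ n) ^ 3) :
    ∃ C : ℕ, C ≤ 2048 * (2 ^ 2 ^ n) ^ 6 ∧ ∀ δ : ℝ, 0 < δ → δ ≤ 1 / 2 → ∀ X K H : ℕ, (1 / δ) ^ C ≤ K →
    (1 / δ) ^ C * (K : ℝ) ^ (2 ^ 2 ^ n) ≤ X → δ * X ≤ K * H → 16 * n * K * H ≤ X → 1 ≤ H → ∀ 𝒜 : Finset ℕ, 𝒜 ⊆ Ioc K (2 * K) →
    ∀ f : ℤ → ℂ, Bdd X f →
    δ * ((H : ℝ) ^ (n + 1) * ((K : ℝ) * X) ^ 2) ≤ ∑ t ∈ bxS (n + 1) H, ‖∑ a ∈ 𝒜, FF X (fun i => (a : ℤ) * t i) f‖ ^ 2 →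
    ∃ q : ℕ, 1 ≤ q ∧ (q : ℝ) ≤ (1 / δ) ^ C ∧ 1 ≤ ⌊δ ^ C * H⌋₊ ∧
      δ ^ C * (K * X) ≤ ∑ a ∈ 𝒜, NU X (n + 1) ⌊δ ^ C * H⌋₊ (a * q) f := by
  obtain ⟨C₁, hC₁b, hC₁⟩ := A11_one n C0 hn hV hC0
  refine ⟨(n + 2) * C₁ + (2 * ((n + 2) * C₁) + 3 * n + 14), a12_num n C₁ hn hC₁b, ?_⟩
  set e := (n + 2) * C₁ with he
  intro δ hδ hδ2 X K H hK hX hXK hKH hH 𝒜 hA f hf hsum
  set C := e + (2 * e + 3 * n + 14) with hC
  have hinv : 1 ≤ 1 / δ := by
    rw [le_div_iff₀ hδ]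
    linarith
  have hK1 : (1 : ℝ) ≤ K := le_trans (one_le_pow₀ hinv) hK
  have hK1' : 1 ≤ K := by exact_mod_cast hK1
  have hN2 : 2 ≤ 2 ^ 2 ^ n := by
    calc 2 = 2 ^ 1 := by norm_num
      _ ≤ 2 ^ 2 ^ n := Nat.pow_le_pow_right (by norm_num) (Nat.one_le_two_pow)
  have hDH : 1 ≤ δ ^ C * H := a12_H C (2 ^ 2 ^ n) (by omega) hN2 δ hδ hδ2 X K H hK hX hXK
  have hH' : (1 : ℝ) ≤ H := by exact_mod_cast hH
  have hX1 : 1 ≤ X := by
    have h1 : 1 ≤ 16 * n * K * H := by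
      have h2 : 1 ≤ n * K * H := Nat.mul_pos (Nat.mul_pos hn hK1') hH
      calc 1 ≤ n * K * H := h2
        _ ≤ 16 * (n * K * H) := by omega
        _ = 16 * n * K * H := by ring
    omega
  have hX' : (1 : ℝ) ≤ X := by exact_mod_cast hX1
  -- the small parameter
  set δ' := δ ^ (n + 2) with hδ'
  have hδ'0 : 0 < δ' := by positivity
  have hδ'1 : δ' ≤ δ / 2 ^ (n + 1) := by
    rw [hδ', show n + 2 = (n + 1) + 1 by ring, pow_succ, mul_comm, div_eq_mul_one_div]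
    refine mul_le_mul_of_nonneg_left ?_ hδ.le
    calc δ ^ (n + 1) ≤ (1 / 2 : ℝ) ^ (n + 1) := pow_le_pow_left₀ hδ.le hδ2 _
      _ = 1 / 2 ^ (n + 1) := by rw [one_div_pow]
  have hδ'δ : δ' ≤ δ := by
    refine le_trans hδ'1 ?_
    exact div_le_self hδ.le (one_le_pow₀ (by norm_num))
  have hPe : (1 / δ') ^ C₁ = (1 / δ) ^ e := by
    rw [hδ', he, pow_mul, one_div_pow δ (n + 2)]
  have hDe : δ' ^ C₁ = δ ^ e := by
    rw [hδ', he, pow_mul]
  set D := δ ^ e with hD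
  have hD0 : 0 < D := by positivity
  have hD1 : D ≤ 1 := pow_le_one₀ hδ.le (by linarith)
  have hPD : (1 / δ) ^ e = 1 / D := by rw [hD, one_div_pow]
  set E := δ ^ (2 * e + 3 * n + 14) with hE
  have hE0 : 0 < E := by positivity
  have hEb : E ≤ D ^ 2 * δ / (8 ^ n * 8192) := Pool.Agent.HUK.a12_num n e δ hδ hδ2
  have hCE : δ ^ C = D * E := by rw [hC, pow_add]
  have hE1 : E ≤ 1 := pow_le_one₀ hδ.le (by linarith)
  -- the sum over the last coordinate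
  have hsum2 : δ * ((H : ℝ) ^ (n + 1) * ((K : ℝ) * X) ^ 2) ≤ ∑ t ∈ bxS n H, a12S X n H 𝒜 f t := by
    refine le_trans hsum (le_of_eq ?_)
    rw [a12_split]
    refine sum_congr rfl fun t _ => ?_
    unfold a12S
    refine sum_congr rfl fun m _ => ?_
    congr 2
    exact sum_congr rfl fun a _ => a12_FF X n a m t f
  have hgood := a12_good n H X K hK1' hX1 hH δ (a12S X n H 𝒜 f) (fun t => a12_S_le X n H K 𝒜 hA t f hf) hsum2 hδ
  set T := (bxS n H).filter fun t => δ / 2 ^ (n + 1) * (H * ((K : ℝ) * X) ^ 2) ≤ a12S X n H 𝒜 f t with hT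
  set M1 := ⌊δ' ^ C₁ * H⌋₊ with hM1
  set M2 := ⌊δ ^ C * H⌋₊ with hM2
  have hM2' : 1 ≤ M2 := Nat.le_floor (by exact_mod_cast hDH)
  have hM1' : 1 ≤ M1 := by
    refine Nat.le_floor ?_
    rw [hDe, Nat.cast_one]
    refine le_trans hDH ?_
    rw [hCE]
    refine mul_le_mul_of_nonneg_right ?_ (by linarith)
    calc D * E ≤ D * 1 := mul_le_mul_of_nonneg_left hE1 hD0.le
      _ = D := mul_one D
  -- application of A11
  have hone : ∀ t ∈ T, ∃ q : ℕ, 1 ≤ q ∧ (q : ℝ) ≤ 1 / D ∧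
      D * (K * X) ≤ ∑ a ∈ 𝒜, TQ X M1 ((a : ℤ) * q) 0 (DV (fun i => (a : ℤ) * t i) f) := by
    intro t ht
    rw [hT, mem_filter] at ht
    obtain ⟨q, hq1, hq2, _, hq4⟩ := hC₁ δ' hδ'0 (by linarith) X K H
      (by
        rw [hPe]
        exact le_trans (pow_le_pow_right₀ hinv (by omega)) hK)
      (by
        rw [hPe]
        refine le_trans ?_ hX
        exact mul_le_mul_of_nonneg_right (pow_le_pow_right₀ hinv (by omega)) (by positivity))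
      (le_trans (mul_le_mul_of_nonneg_right hδ'δ (by linarith)) hXK) hKH hH 𝒜 hA f hf t
      (fun i => by
        have h1 := ht.1
        rw [bxS, Fintype.mem_piFinset] at h1
        have h2 := h1 i
        rw [mem_Ioo] at h2
        rw [abs_le]
        constructor <;> omega)
      (by
        refine le_trans ?_ ht.2
        exact mul_le_mul_of_nonneg_right hδ'1 (by positivity))
    rw [hPe, hPD] at hq2
    rw [← hM1, hDe] at hq4
    exact ⟨q, hq1, hq2, hq4⟩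
  obtain ⟨q, hq1, hq2, hq3⟩ := a12_pigeon T
    (fun t q => ∑ a ∈ 𝒜, TQ X M1 ((a : ℤ) * (q : ℕ)) 0 (DV (fun i => (a : ℤ) * t i) f))
    (fun t q => sum_nonneg fun a _ => a12_TQ_nonneg _ _ _ _ _) (1 / D) (D * (K * X))
    (by
      rw [le_div_iff₀ hD0]
      linarith) (by positivity) hone
  have hKX : (0 : ℝ) < K * X := by positivity
  have hL : (0 : ℝ) < (H : ℝ) ^ n := by positivity
  -- lower bound for the sum over `T`
  have hlow : δ / 16 * (H : ℝ) ^ n * (D ^ 2 * (K * X)) ≤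
      ∑ t ∈ T, ∑ a ∈ 𝒜, TQ X M1 ((a : ℤ) * q) 0 (DV (fun i => (a : ℤ) * t i) f) := by
    have h1 : δ / 16 * (H : ℝ) ^ n * (D * (K * X)) ≤ T.card * (D * (K * X)) :=
      mul_le_mul_of_nonneg_right hgood (by positivity)
    have h2 := le_trans h1 hq3
    calc δ / 16 * (H : ℝ) ^ n * (D ^ 2 * (K * X)) = D * (δ / 16 * (H : ℝ) ^ n * (D * (K * X))) := by ring
      _ ≤ D * (1 / D * ∑ t ∈ T, ∑ a ∈ 𝒜, TQ X M1 ((a : ℤ) * q) 0 (DV (fun i => (a : ℤ) * t i) f)) :=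
          mul_le_mul_of_nonneg_left h2 hD0.le
      _ = ∑ t ∈ T, ∑ a ∈ 𝒜, TQ X M1 ((a : ℤ) * q) 0 (DV (fun i => (a : ℤ) * t i) f) := by
          field_simp
  -- sizes
  have hM2le : (M2 : ℝ) ≤ δ ^ C * H := Nat.floor_le (by positivity)
  have hM1ge : D * H ≤ 2 * M1 := by
    have h1 : D * H < M1 + 1 := by
      have := Nat.lt_floor_add_one (δ' ^ C₁ * (H : ℝ))
      rw [hDe] at this
      rw [hM1, hDe]
      exact this
    have h2 : (1 : ℝ) ≤ M1 := by exact_mod_cast hM1'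
    linarith
  have hM1pos : (0 : ℝ) < M1 := by
    have h2 : (1 : ℝ) ≤ M1 := by exact_mod_cast hM1'
    linarith
  have hqM2 : (q : ℝ) * M2 ≤ E * H := by
    calc (q : ℝ) * M2 ≤ (1 / D) * (δ ^ C * H) := mul_le_mul hq2 hM2le (Nat.cast_nonneg _) (by positivity)
      _ = E * H := by
          rw [hCE]
          field_simp
  have hqM2' : q * M2 ≤ H := by
    have h1 : (q : ℝ) * M2 ≤ H := by
      refine le_trans hqM2 ?_
      calc E * H ≤ 1 * H := mul_le_mul_of_nonneg_right hE1 (by linarith)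
        _ = H := one_mul _
    exact_mod_cast h1
  have haK : ∀ a ∈ 𝒜, K < a ∧ a ≤ 2 * K := fun a ha => mem_Ioc.1 (hA ha)
  have h2KH : 4 * K * H ≤ X := by
    refine le_trans ?_ hKH
    calc 4 * K * H = 4 * 1 * K * H := by ring
      _ ≤ 16 * n * K * H := by
          refine Nat.mul_le_mul_right _ (Nat.mul_le_mul_right _ ?_)
          omega
  have haM : ∀ a ∈ 𝒜, a * (q * M2) ≤ X := by
    intro a ha
    calc a * (q * M2) ≤ (2 * K) * H := Nat.mul_le_mul (haK a ha).2 hqM2'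
      _ ≤ 4 * K * H := by
          refine Nat.mul_le_mul_right _ ?_
          omega
      _ ≤ X := h2KH
  have hfrac : (2 * (M2 : ℝ) / M1) ≤ 4 * E := by
    rw [div_le_iff₀ hM1pos]
    calc 2 * (M2 : ℝ) ≤ 2 * (δ ^ C * H) := by linarith
      _ = 2 * E * (D * H) := by
          rw [hCE]
          ring
      _ ≤ 2 * E * (2 * M1) := mul_le_mul_of_nonneg_left hM1ge (by positivity)
      _ = 4 * E * M1 := by ring
  have hshort : ∀ t : Fin n → ℤ, ∀ a ∈ 𝒜, TQ X M1 ((a : ℤ) * q) 0 (DV (fun i => (a : ℤ) * t i) f) ≤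
      2 * TQ X M2 ((a : ℤ) * q) 0 (DV (fun i => (a : ℤ) * t i) f) + 128 * X * E ^ 2 := by
    intro t a ha
    have h1 := a12_short X M1 M2 hM1' hM2' ((a : ℤ) * q) (by positivity)
      (by
        have h2 := haM a ha
        rw [← mul_assoc] at h2
        exact_mod_cast h2) (DV (fun i => (a : ℤ) * t i) f) (Bdd_DV hf _)
    have h3 : (2 * (M2 : ℝ) / M1) ^ 2 ≤ (4 * E) ^ 2 := pow_le_pow_left₀ (by positivity) hfrac 2
    have h4 : 8 * (X : ℝ) * (2 * (M2 : ℝ) / M1) ^ 2 ≤ 8 * X * (4 * E) ^ 2 :=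
      mul_le_mul_of_nonneg_left h3 (by positivity)
    calc TQ X M1 ((a : ℤ) * q) 0 (DV (fun i => (a : ℤ) * t i) f) ≤ _ := h1
      _ ≤ 2 * TQ X M2 ((a : ℤ) * q) 0 (DV (fun i => (a : ℤ) * t i) f) + 8 * X * (4 * E) ^ 2 := by linarith
      _ = 2 * TQ X M2 ((a : ℤ) * q) 0 (DV (fun i => (a : ℤ) * t i) f) + 128 * X * E ^ 2 := by ring
  have hAc := a12_card K 𝒜 hA
  have hTc : (T.card : ℝ) ≤ (2 * H) ^ n := by
    refine le_trans ?_ (bxS_card n H)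
    exact_mod_cast card_le_card (filter_subset _ _)
  set Z := ∑ t ∈ T, ∑ a ∈ 𝒜, TQ X M2 ((a : ℤ) * q) 0 (DV (fun i => (a : ℤ) * t i) f) with hZ
  have hup : ∑ t ∈ T, ∑ a ∈ 𝒜, TQ X M1 ((a : ℤ) * q) 0 (DV (fun i => (a : ℤ) * t i) f) ≤
      2 * Z + (2 * H) ^ n * (K * (128 * X * E ^ 2)) := by
    calc ∑ t ∈ T, ∑ a ∈ 𝒜, TQ X M1 ((a : ℤ) * q) 0 (DV (fun i => (a : ℤ) * t i) f) ≤
        ∑ t ∈ T, ∑ a ∈ 𝒜, (2 * TQ X M2 ((a : ℤ) * q) 0 (DV (fun i => (a : ℤ) * t i) f) + 128 * X * E ^ 2) :=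
          sum_le_sum fun t _ => sum_le_sum fun a ha => hshort t a ha
      _ = 2 * Z + T.card * (𝒜.card * (128 * X * E ^ 2)) := by
          rw [hZ, mul_sum]
          rw [← nsmul_eq_mul T.card, ← sum_const, ← sum_add_distrib]
          refine sum_congr rfl fun t _ => ?_
          rw [sum_add_distrib, mul_sum, sum_const, nsmul_eq_mul]
      _ ≤ 2 * Z + (2 * H) ^ n * (K * (128 * X * E ^ 2)) := by
          have h1 : (𝒜.card : ℝ) * (128 * X * E ^ 2) ≤ K * (128 * X * E ^ 2) :=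
            mul_le_mul_of_nonneg_right hAc (by positivity)
          have h2 : (T.card : ℝ) * (𝒜.card * (128 * X * E ^ 2)) ≤ (2 * H) ^ n * (K * (128 * X * E ^ 2)) :=
            mul_le_mul hTc h1 (by positivity) (by positivity)
          linarith
  have h8 : (0 : ℝ) < 8 ^ n := by positivity
  have h8' : (1 : ℝ) ≤ 8 ^ n := one_le_pow₀ (by norm_num)
  have h28 : (2 : ℝ) ^ n ≤ 8 ^ n := pow_le_pow_left₀ (by norm_num) (by norm_num) n
  have hEE : E ^ 2 ≤ E := by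
    calc E ^ 2 = E * E := by ring
      _ ≤ E * 1 := mul_le_mul_of_nonneg_left hE1 hE0.le
      _ = E := mul_one E
  have hE8 : 8 ^ n * E ≤ D ^ 2 * δ / 8192 := by
    calc 8 ^ n * E ≤ 8 ^ n * (D ^ 2 * δ / (8 ^ n * 8192)) := mul_le_mul_of_nonneg_left hEb h8.le
      _ = D ^ 2 * δ / 8192 := by field_simp
  have h2E : (2 : ℝ) ^ n * E ^ 2 ≤ D ^ 2 * δ / 8192 := by
    calc (2 : ℝ) ^ n * E ^ 2 ≤ 8 ^ n * E := mul_le_mul h28 hEE (by positivity) h8.le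
      _ ≤ D ^ 2 * δ / 8192 := hE8
  have hZlow : δ / 64 * D ^ 2 * ((H : ℝ) ^ n * (K * X)) ≤ Z := by
    have h1 := le_trans hlow hup
    have h2 : (2 * (H : ℝ)) ^ n * (K * (128 * X * E ^ 2)) = 128 * (2 ^ n * E ^ 2) * ((H : ℝ) ^ n * (K * X)) := by
      rw [mul_pow]
      ring
    rw [h2] at h1
    have h3 : 128 * ((2 : ℝ) ^ n * E ^ 2) * ((H : ℝ) ^ n * (K * X)) ≤ 128 * (D ^ 2 * δ / 8192) * ((H : ℝ) ^ n * (K * X)) :=
      mul_le_mul_of_nonneg_right (mul_le_mul_of_nonneg_left h2E (by norm_num)) (by positivity)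
    have h4 : δ / 16 * (H : ℝ) ^ n * (D ^ 2 * (K * X)) = δ / 16 * D ^ 2 * ((H : ℝ) ^ n * (K * X)) := by ring
    rw [h4] at h1
    have h5 : 0 ≤ δ * D ^ 2 * ((H : ℝ) ^ n * (K * X)) := by positivity
    linarith
  -- the other coordinates
  have hcoord : ∀ a ∈ 𝒜, (1 / 2 : ℝ) ^ n * (∑ t ∈ T, TQ X M2 ((a : ℤ) * q) 0 (DV (fun i => (a : ℤ) * t i) f)) /
      (2 * H) ^ n ≤ 2 ^ n * (NU X (n + 1) M2 (a * q) f + 8 * X * E ^ 2) := by
    intro a ha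
    have h1 := A10_coord n X (2 * H) M2 q a (by omega) hM2' hq1
      (by
        calc a * (2 * H) ≤ (2 * K) * (2 * H) := Nat.mul_le_mul_right _ (haK a ha).2
          _ = 4 * K * H := by ring
          _ ≤ X := h2KH) (haM a ha) f hf
    have h2 : (1 / 2 : ℝ) ^ n * (∑ t ∈ T, TQ X M2 ((a : ℤ) * q) 0 (DV (fun i => (a : ℤ) * t i) f)) ≤
        ∑ t ∈ bxS n (2 * H), FW (2 * H) t * TQ X M2 ((a : ℤ) * q) 0 (DV (fun i => (a : ℤ) * t i) f) := by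
      rw [mul_sum]
      refine le_trans (sum_le_sum fun t ht => ?_) (sum_le_sum_of_subset_of_nonneg
        (f := fun t => FW (2 * H) t * TQ X M2 ((a : ℤ) * q) 0 (DV (fun i => (a : ℤ) * t i) f))
        (le_trans (filter_subset _ _) (a12_mono n H)) fun t _ _ => ?_)
      · exact mul_le_mul_of_nonneg_right (a12_FW H n hH t (mem_filter.1 ht).1) (a12_TQ_nonneg _ _ _ _ _)
      · exact mul_nonneg (a12_FW_nonneg _ _ _) (a12_TQ_nonneg _ _ _ _ _)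
    have h3 : ((2 * H : ℕ) : ℝ) = 2 * H := by push_cast; ring
    rw [h3] at h1
    have h4 : (q * M2 / (2 * H) : ℝ) ^ 2 ≤ (E / 2) ^ 2 := by
      refine pow_le_pow_left₀ (by positivity) ?_ 2
      rw [div_le_iff₀ (by positivity)]
      calc (q : ℝ) * M2 ≤ E * H := hqM2
        _ = E / 2 * (2 * H) := by ring
    have h5 : (32 : ℝ) * X * (q * M2 / (2 * H) : ℝ) ^ 2 ≤ 8 * X * E ^ 2 := by
      calc (32 : ℝ) * X * (q * M2 / (2 * H) : ℝ) ^ 2 ≤ 32 * X * (E / 2) ^ 2 :=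
            mul_le_mul_of_nonneg_left h4 (by positivity)
        _ = 8 * X * E ^ 2 := by ring
    calc (1 / 2 : ℝ) ^ n * (∑ t ∈ T, TQ X M2 ((a : ℤ) * q) 0 (DV (fun i => (a : ℤ) * t i) f)) / (2 * H) ^ n ≤
        (∑ t ∈ bxS n (2 * H), FW (2 * H) t * TQ X M2 ((a : ℤ) * q) 0 (DV (fun i => (a : ℤ) * t i) f)) / (2 * H) ^ n :=
          div_le_div_of_nonneg_right h2 (by positivity)
      _ ≤ 2 ^ n * (NU X (n + 1) M2 (a * q) f + 32 * X * (q * M2 / (2 * H) : ℝ) ^ 2) := h1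
      _ ≤ 2 ^ n * (NU X (n + 1) M2 (a * q) f + 8 * X * E ^ 2) :=
          mul_le_mul_of_nonneg_left (by linarith) (by positivity)
  set W := ∑ a ∈ 𝒜, NU X (n + 1) M2 (a * q) f with hW
  have hfin : (1 / 2 : ℝ) ^ n * Z / (2 * H) ^ n ≤ 2 ^ n * (W + K * (8 * X * E ^ 2)) := by
    have h1 : (1 / 2 : ℝ) ^ n * Z / (2 * H) ^ n = ∑ a ∈ 𝒜, (1 / 2 : ℝ) ^ n *
        (∑ t ∈ T, TQ X M2 ((a : ℤ) * q) 0 (DV (fun i => (a : ℤ) * t i) f)) / (2 * H) ^ n := by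
      rw [hZ, sum_comm, ← sum_div, ← mul_sum]
    rw [h1]
    refine le_trans (sum_le_sum hcoord) ?_
    rw [← mul_sum, sum_add_distrib, sum_const, nsmul_eq_mul]
    refine mul_le_mul_of_nonneg_left ?_ (by positivity)
    have h2 : (𝒜.card : ℝ) * (8 * X * E ^ 2) ≤ K * (8 * X * E ^ 2) := mul_le_mul_of_nonneg_right hAc (by positivity)
    linarith
  refine ⟨q, hq1, ?_, hM2', ?_⟩
  · refine le_trans hq2 ?_
    rw [← hPD]
    exact pow_le_pow_right₀ hinv (by omega)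
  · have h1 : (1 / 2 : ℝ) ^ n * (δ / 64 * D ^ 2 * ((H : ℝ) ^ n * (K * X))) / (2 * H) ^ n ≤
        2 ^ n * (W + K * (8 * X * E ^ 2)) := by
      refine le_trans ?_ hfin
      refine div_le_div_of_nonneg_right ?_ (by positivity)
      exact mul_le_mul_of_nonneg_left hZlow (by positivity)
    have h2 : (1 / 2 : ℝ) ^ n * (δ / 64 * D ^ 2 * ((H : ℝ) ^ n * (K * X))) / (2 * H) ^ n =
        2 ^ n * (δ / 64 * D ^ 2 * (K * X) / 8 ^ n) := by
      have h8n : (8 : ℝ) ^ n = 2 ^ n * 2 ^ n * 2 ^ n := by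
        rw [← mul_pow, ← mul_pow]
        norm_num
      rw [h8n, mul_pow, one_div_pow]
      field_simp
    rw [h2] at h1
    have h3 : δ / 64 * D ^ 2 * (K * X) / 8 ^ n ≤ W + K * (8 * X * E ^ 2) :=
      le_of_mul_le_mul_left h1 (by positivity)
    rw [hCE]
    have h4 : D * E ≤ E := by
      calc D * E ≤ 1 * E := mul_le_mul_of_nonneg_right hD1 hE0.le
        _ = E := one_mul E
    have h5 : 9 * E ≤ δ / 64 * D ^ 2 / 8 ^ n := by
      have h6 : D ^ 2 * δ / (8 ^ n * 8192) = (δ / 64 * D ^ 2 / 8 ^ n) / 128 := by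
        field_simp
        norm_num
      rw [h6] at hEb
      have h7 : 0 ≤ δ / 64 * D ^ 2 / 8 ^ n := by positivity
      linarith
    have h6 : D * E * (K * X) + K * (8 * X * E ^ 2) ≤ 9 * E * (K * X) := by
      have h7 : D * E * (K * X) ≤ E * (K * X) := mul_le_mul_of_nonneg_right h4 hKX.le
      have h8 : E ^ 2 * (K * X) ≤ E * (K * X) := mul_le_mul_of_nonneg_right hEE hKX.le
      linarith
    have h7 : 9 * E * (K * X) ≤ δ / 64 * D ^ 2 * (K * X) / 8 ^ n := by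
      calc 9 * E * (K * X) ≤ δ / 64 * D ^ 2 / 8 ^ n * (K * X) := mul_le_mul_of_nonneg_right h5 hKX.le
        _ = δ / 64 * D ^ 2 * (K * X) / 8 ^ n := by ring
    linarith

end Pool.Agent.Lib.H88U
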