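import Pool.Agent.Lib.HUK.A15

/-!
# Uniform module A, chunk A16a: one dyadic interval, `1 + log X ≤ 1 / δ`
-/

open Finset

namespace Pool.Agent.Lib.H88U

open Pool.Agent.HUK

/-- `HUK.A16_one` with `1 + log X ≤ 1 / δ` instead of the divisor bound. -/
theorem A16_one (n : ℕ) (hn : 1 ≤ n) (C : ℕ)
    (hstar : ∀ δ : ℝ, 0 < δ → δ ≤ 1 / 2 → ∀ X K H : ℕ, (1 / δ) ^ C ≤ K →
      (1 / δ) ^ C * (K : ℝ) ^ (2 ^ 2 ^ n) ≤ X → δ * X ≤ K * H → 16 * n * K * H ≤ X → 1 ≤ H →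
      1 + Real.log X ≤ 1 / δ → ∀ 𝒜 : Finset ℕ, 𝒜 ⊆ Ioc K (2 * K) →
      ∀ f : ℤ → ℂ, Bdd X f →
      δ * ((H : ℝ) ^ (n + 1) * ((K : ℝ) * X) ^ 2) ≤ ∑ t ∈ bxS (n + 1) H, ‖∑ a ∈ 𝒜, FF X (fun i => (a : ℤ) * t i) f‖ ^ 2 →
      δ ^ C * (X : ℝ) ^ (n + 2) ≤ GG X (n + 1) f)
    (δ Z : ℝ) (hδ : 0 < δ) (hδ2 : δ ≤ 1 / 2) (hZ : 0 ≤ Z) (hZδ : Z ^ (2 ^ (n + 2)) = δ) (X K : ℕ) (hX : 1 ≤ X)
    (hK : 1 ≤ K) (h1 : (1 / δ) ^ C ≤ K) (h2 : (1 / δ) ^ C * (K : ℝ) ^ (2 ^ 2 ^ n) ≤ X)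
    (h3 : 2 * (16 * (n + 2) * (n + 2).factorial) * K ≤ X) (h4 : δ * (2 * (16 * (n + 2) * (n + 2).factorial)) ≤ 1)
    (hdiv : 1 + Real.log X ≤ 1 / δ) (β : ℕ → ℂ) (R : ℝ) (hR : 0 ≤ R)
    (hβR : ∀ b, ‖β b‖ ≤ R) (f : ℕ → ℤ → ℂ) (hf : ∀ j, j < n + 2 → Bdd X (f j))
    (hG : GG X (n + 1) (f 0) < δ ^ C * (X : ℝ) ^ (n + 2)) :
    ∑ a ∈ Ioc K (2 * K), ‖∑ b ∈ Icc 1 (2 * (n + 2) * X), β b * Psi X (n + 2) f ((a : ℤ) * (b : ℕ))‖ ≤
      52 * (X : ℝ) ^ 2 * ((2 ^ (2 ^ (n + 1)) * (((n + 2 : ℕ) : ℝ) * (n + 2).factorial) * 2 ^ (n + 1)) * R * Z) := by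
  have hk3 : 3 ≤ n + 2 := by omega
  set c0 : ℕ := 16 * (n + 2) * (n + 2).factorial with hc0
  have hfac : 1 ≤ (n + 2).factorial := Nat.factorial_pos _
  have hc0p : 1 ≤ c0 := by
    rw [hc0]
    exact Nat.mul_pos (by omega) hfac
  set H : ℕ := X / (c0 * K) with hH
  set Nb : ℕ := 2 * X / K with hNb
  have hc0K : 0 < c0 * K := Nat.mul_pos hc0p hK
  have hHle : H * (c0 * K) ≤ X := Nat.div_mul_le_self _ _
  have hHlt : X < (H + 1) * (c0 * K) := by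
    rw [mul_comm]
    exact Nat.lt_mul_div_succ X hc0K
  have hH1 : 1 ≤ H := by
    rw [hH, Nat.one_le_div_iff hc0K]
    have : 2 * c0 * K = 2 * (c0 * K) := by ring
    omega
  have hNble : Nb * K ≤ 2 * X := Nat.div_mul_le_self _ _
  have hKN : 2 * K * Nb ≤ 4 * X := by nlinarith
  have hHN : H * ((n + 2).factorial * (n + 2)) ≤ Nb := by
    rw [hNb, Nat.le_div_iff_mul_le hK]
    have e : H * (c0 * K) = 16 * (H * ((n + 2).factorial * (n + 2)) * K) := by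
      rw [hc0]
      ring
    omega
  have hHK : 2 * H * (n + 2).factorial * K ≤ X := by
    have e : H * (c0 * K) = (8 * (n + 2)) * (2 * H * (n + 2).factorial * K) := by
      rw [hc0]
      ring
    have h5 : 1 * (2 * H * (n + 2).factorial * K) ≤ (8 * (n + 2)) * (2 * H * (n + 2).factorial * K) :=
      Nat.mul_le_mul_right _ (by omega)
    omega
  have h16 : 16 * n * K * H ≤ X := by
    have h5 : 16 * n * K * H ≤ H * (c0 * K) := by
      have e : H * (c0 * K) = 16 * (n + 2) * K * H * (n + 2).factorial := by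
        rw [hc0]
        ring
      rw [e]
      calc 16 * n * K * H ≤ 16 * (n + 2) * K * H := by gcongr; omega
        _ = 16 * (n + 2) * K * H * 1 := by ring
        _ ≤ _ := Nat.mul_le_mul_left _ hfac
    omega
  have hNb1 : 1 ≤ Nb := by
    refine le_trans ?_ hHN
    exact Nat.mul_pos hH1 (Nat.mul_pos hfac (by omega))
  have hXr : (1 : ℝ) ≤ X := by exact_mod_cast hX
  have hKr : (1 : ℝ) ≤ K := by exact_mod_cast hK
  have hc0r : (1 : ℝ) ≤ c0 := by exact_mod_cast hc0p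
  have hKH : δ * X ≤ K * H := by
    have h5 : (X : ℝ) ≤ (H + 1) * (c0 * K) := by exact_mod_cast hHlt.le
    have h6 : (2 : ℝ) * c0 * K ≤ X := by exact_mod_cast h3
    have h7 : (X : ℝ) ≤ 2 * c0 * (K * H) := by nlinarith
    have h8 : δ * (2 * (c0 : ℝ)) ≤ 1 := by
      rw [hc0]
      push_cast
      exact h4
    calc δ * X ≤ δ * (2 * c0 * (K * H)) := mul_le_mul_of_nonneg_left h7 hδ.le
      _ = (δ * (2 * c0)) * (K * H) := by ring
      _ ≤ 1 * (K * H) := mul_le_mul_of_nonneg_right h8 (by positivity)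
      _ = K * H := one_mul _
  -- the weights on `ℤ`
  set β' : ℤ → ℂ := fun b => if b ∈ Icc (1 : ℤ) Nb then β b.toNat else 0 with hβ'
  have hβ0 : ∀ b, b ∉ Icc (1 : ℤ) Nb → β' b = 0 := fun b hb => if_neg hb
  have hβ'R : ∀ b, ‖β' b‖ ≤ R := by
    intro b
    simp only [hβ']
    split_ifs
    · exact hβR _
    · simpa using hR
  have hS : ∀ a0 ρ : ℕ, a0 < n + 2 → ρ < (n + 2).factorial → ∑ j ∈ bxS (n + 2 - 1) H,
      ‖∑ a ∈ (Ioc K (2 * K)).filter (fun a => a % (n + 2) = a0),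
        FF X (fun i => (a : ℤ) * j i) (frho (n + 2) (f 0) ρ)‖ ^ 2 ≤
        (Z ^ (2 ^ (n + 1))) ^ 2 * ((H : ℝ) ^ (n + 2 - 1) * ((K : ℝ) * X) ^ 2) := by
    intro a0 ρ _ hρ
    have e : (Z ^ (2 ^ (n + 1))) ^ 2 = δ := by
      rw [← pow_mul, ← hZδ]
      congr 1
    rw [e]
    by_contra hcon
    push Not at hcon
    have hdil := V1_dil X (n + 1) (n + 2).factorial hX (by omega) hfac (ρ : ℤ) (by positivity) (by exact_mod_cast hρ)
      (f 0) (hf 0 (by omega))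
    have hstar' := hstar δ hδ hδ2 X K H h1 h2 hKH h16 hH1 hdiv _ (Finset.filter_subset _ _)
      (frho (n + 2) (f 0) ρ) hdil.1 hcon.le
    have hres := V1_res X (n + 1) (n + 2).factorial (by omega) hfac (ρ : ℤ) (f 0) (hf 0 (by omega)).sup
    have : GG X (n + 1) (frho (n + 2) (f 0) ρ) ≤ GG X (n + 1) (f 0) := by
      refine (le_of_eq hdil.2).trans hres
    linarith
  have hblk := A15_block (n + 2) hk3 X K H Nb hX hK hH1 hNb1 hKN hHN hHK β' hβ0 R hR hβ'R f hf (Z ^ (2 ^ (n + 1)))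
    (by positivity) hS
  have hP : n + 2 - 1 = n + 1 := rfl
  rw [hP] at hblk
  set Ck : ℝ := 2 ^ (2 ^ (n + 1)) * (((n + 2 : ℕ) : ℝ) * (n + 2).factorial) * 2 ^ (n + 1) with hCk
  have hCk1 : 1 ≤ Ck := by
    have a1 : (1 : ℝ) ≤ 2 ^ (2 ^ (n + 1)) := one_le_pow₀ (by norm_num)
    have a2 : (1 : ℝ) ≤ 2 ^ (n + 1) := one_le_pow₀ (by norm_num)
    have a3 : (1 : ℝ) ≤ ((n + 2 : ℕ) : ℝ) * (n + 2).factorial := by
      exact_mod_cast Nat.mul_pos (by omega : 0 < n + 2) hfac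
    rw [hCk]
    exact one_le_mul_of_one_le_of_one_le (one_le_mul_of_one_le_of_one_le a1 a3) a2
  have hsum : ∑ a ∈ Ioc K (2 * K), ‖∑ b ∈ Icc (1 : ℤ) Nb, β' b * Psi X (n + 2) f ((a : ℤ) * b)‖ / (26 * Nb * X) ≤
      Ck * (K * R * Z) := by
    have h5 : (∑ a ∈ Ioc K (2 * K), ‖∑ b ∈ Icc (1 : ℤ) Nb, β' b * Psi X (n + 2) f ((a : ℤ) * b)‖ / (26 * Nb * X)) ^
        (2 ^ (n + 1)) ≤ (Ck * (K * R * Z)) ^ (2 ^ (n + 1)) := by
      refine hblk.trans ?_
      rw [mul_pow Ck, mul_pow _ Z, ← mul_assoc]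
      refine mul_le_mul_of_nonneg_right ?_ (by positivity)
      refine mul_le_mul_of_nonneg_right ?_ (by positivity)
      exact le_self_pow₀ hCk1 (by positivity)
    exact (pow_le_pow_iff_left₀ (Finset.sum_nonneg fun _ _ => by positivity) (by positivity) (by positivity)).1 h5
  have hconv : ∀ a ∈ Ioc K (2 * K), ‖∑ b ∈ Icc 1 (2 * (n + 2) * X), β b * Psi X (n + 2) f ((a : ℤ) * (b : ℕ))‖ =
      (26 * Nb * X) * (‖∑ b ∈ Icc (1 : ℤ) Nb, β' b * Psi X (n + 2) f ((a : ℤ) * b)‖ / (26 * Nb * X)) := by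
    intro a ha
    rw [mem_Ioc] at ha
    have hNr : (0 : ℝ) < 26 * Nb * X := by
      have : (1 : ℝ) ≤ Nb := by exact_mod_cast hNb1
      positivity
    rw [mul_div_cancel₀ _ hNr.ne']
    congr 1
    symm
    have hNbX : Nb ≤ 2 * (n + 2) * X := by
      refine (Nat.div_le_self _ _).trans ?_
      nlinarith
    refine Finset.sum_bij_ne_zero (fun b _ _ => b.toNat) ?_ ?_ ?_ ?_
    · intro b hb _
      rw [mem_Icc] at hb ⊢
      omega
    · intro b1 hb1 _ b2 hb2 _ he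
      rw [mem_Icc] at hb1 hb2
      omega
    · intro b hb hne
      rw [mem_Icc] at hb
      have hbN : b ≤ Nb := by
        by_contra hcon
        push Not at hcon
        apply hne
        rw [A14_zero X (n + 2) hk3 f hf, mul_zero]
        have h6 : 2 * X < (Nb + 1) * K := by
          have h6' := Nat.lt_mul_div_succ (2 * X) hK
          rw [← hNb] at h6'
          rw [mul_comm (Nb + 1) K]
          exact h6'
        have h7 : (Nb + 1) * K ≤ b * a := Nat.mul_le_mul hcon ha.1.le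
        have h8 : 2 * X < a * b := by
          rw [mul_comm a b]
          omega
        exact_mod_cast h8
      refine ⟨(b : ℤ), ?_, ?_, by simp⟩
      · rw [mem_Icc]
        omega
      · have e1 : β' (b : ℤ) = β b := by
          simp only [hβ']
          rw [if_pos (by rw [mem_Icc]; omega)]
          simp
        rw [e1]
        exact hne
    · intro b hb _
      have hb' := hb
      rw [mem_Icc] at hb'
      have e2 : ((b.toNat : ℕ) : ℤ) = b := Int.toNat_of_nonneg (by omega)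
      simp only [hβ']
      rw [if_pos hb, e2]
  rw [Finset.sum_congr rfl hconv, ← Finset.mul_sum]
  have hNbr : (Nb : ℝ) * K ≤ 2 * X := by exact_mod_cast hNble
  have hNr : (0 : ℝ) ≤ 26 * Nb * X := by positivity
  refine (mul_le_mul_of_nonneg_left hsum hNr).trans ?_
  have hRZ : 0 ≤ Ck * R * Z := by positivity
  have e3 : 26 * (Nb : ℝ) * X * (Ck * (K * R * Z)) = 26 * X * (Nb * K) * (Ck * R * Z) := by ring
  have e4 : 52 * (X : ℝ) ^ 2 * (Ck * R * Z) = 26 * X * (2 * X) * (Ck * R * Z) := by ring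
  rw [e3, e4]
  refine mul_le_mul_of_nonneg_right ?_ hRZ
  exact mul_le_mul_of_nonneg_left hNbr (by positivity)

end Pool.Agent.Lib.H88U
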