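import Pool.Agent.Lib.H16U.Defs

/-!
# Uniform module A, chunk A16n: numbers for the final choice of the parameters
-/

open Finset

namespace Pool.Agent.Lib.H88U

open Pool.Agent.HUK
open Pool.Agent.H16U

private theorem a16n_sq (n : ℕ) (hn : 1 ≤ n) : (n + 2) * (n + 2) ≤ 9 * 2 ^ n := by
  induction n, hn using Nat.le_induction with
  | base => norm_num
  | succ m hm ih =>
    rw [pow_succ]
    nlinarith

private theorem a16n_lin (n : ℕ) : n + 2 ≤ 2 * 2 ^ n := by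
  have h : n < 2 ^ n := Nat.lt_two_pow_self
  omega

/-- The factorial. -/
theorem A16n_fac (n : ℕ) (hn : 1 ≤ n) : (n + 2) * (n + 2).factorial ≤ 2 ^ (11 * 2 ^ n) := by
  have h1 : (n + 2).factorial ≤ (n + 2) ^ (n + 2) := Nat.factorial_le_pow (n + 2)
  have h2 : n + 2 ≤ 2 ^ (n + 2) := Nat.lt_two_pow_self.le
  have h3 : (n + 2) ^ (n + 2) ≤ 2 ^ ((n + 2) * (n + 2)) := by
    rw [pow_mul]
    exact Nat.pow_le_pow_left h2 _
  calc (n + 2) * (n + 2).factorial ≤ 2 ^ (n + 2) * 2 ^ ((n + 2) * (n + 2)) := Nat.mul_le_mul h2 (h1.trans h3)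
    _ = 2 ^ ((n + 2) + (n + 2) * (n + 2)) := (pow_add _ _ _).symm
    _ ≤ 2 ^ (11 * 2 ^ n) := by
        refine Nat.pow_le_pow_right (by norm_num) ?_
        have := a16n_sq n hn
        have := a16n_lin n
        omega

theorem A16n_c0 (n : ℕ) (hn : 1 ≤ n) : (2 * (16 * ((n : ℝ) + 2) * ((n + 2).factorial : ℝ))) ≤ 2 ^ (14 * 2 ^ n) := by
  have h1 := A16n_fac n hn
  have h2 : ((n : ℝ) + 2) * ((n + 2).factorial : ℝ) ≤ 2 ^ (11 * 2 ^ n) := by exact_mod_cast h1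
  have h3 : (2 : ℝ) ^ (11 * 2 ^ n + 5) ≤ 2 ^ (14 * 2 ^ n) := by
    refine pow_le_pow_right₀ (by norm_num) ?_
    have : 2 ≤ 2 ^ n := by
      calc 2 = 2 ^ 1 := rfl
        _ ≤ 2 ^ n := Nat.pow_le_pow_right (by norm_num) hn
    omega
  have h4 : (2 : ℝ) ^ (11 * 2 ^ n + 5) = 2 ^ (11 * 2 ^ n) * 32 := by rw [pow_add]; norm_num
  linarith

theorem A16n_Ck (n : ℕ) (hn : 1 ≤ n) :
    52 * ((2 : ℝ) ^ (2 ^ (n + 1)) * (((n + 2 : ℕ) : ℝ) * ((n + 2).factorial : ℝ)) * 2 ^ (n + 1)) ≤ 2 ^ (18 * 2 ^ n) := by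
  have h1 := A16n_fac n hn
  have h2 : ((n + 2 : ℕ) : ℝ) * ((n + 2).factorial : ℝ) ≤ 2 ^ (11 * 2 ^ n) := by exact_mod_cast h1
  have h3 : (2 : ℝ) ^ (2 ^ (n + 1)) * (((n + 2 : ℕ) : ℝ) * ((n + 2).factorial : ℝ)) * 2 ^ (n + 1) ≤
      2 ^ (2 ^ (n + 1)) * 2 ^ (11 * 2 ^ n) * 2 ^ (n + 1) := by gcongr
  have h4 : (2 : ℝ) ^ (2 ^ (n + 1)) * 2 ^ (11 * 2 ^ n) * 2 ^ (n + 1) = 2 ^ (2 ^ (n + 1) + 11 * 2 ^ n + (n + 1)) := by
    rw [← pow_add, ← pow_add]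
  have h5 : (52 : ℝ) ≤ 2 ^ 6 := by norm_num
  calc 52 * ((2 : ℝ) ^ (2 ^ (n + 1)) * (((n + 2 : ℕ) : ℝ) * ((n + 2).factorial : ℝ)) * 2 ^ (n + 1)) ≤
        2 ^ 6 * 2 ^ (2 ^ (n + 1) + 11 * 2 ^ n + (n + 1)) := by
        rw [← h4]
        exact mul_le_mul h5 h3 (by positivity) (by positivity)
    _ = 2 ^ (6 + (2 ^ (n + 1) + 11 * 2 ^ n + (n + 1))) := (pow_add _ _ _).symm
    _ ≤ 2 ^ (18 * 2 ^ n) := by
        refine pow_le_pow_right₀ (by norm_num) ?_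
        have : 2 ≤ 2 ^ n := by
          calc 2 = 2 ^ 1 := rfl
            _ ≤ 2 ^ n := Nat.pow_le_pow_right (by norm_num) hn
        have := a16n_lin n
        have e : 2 ^ (n + 1) = 2 * 2 ^ n := by rw [pow_succ]; ring
        rw [e]
        omega

/-- In the regime, `u = (log X)^(1/14)` is at least `2^(64 2^n)`, and `log log X ≤ 14 u`. -/
theorem A16n_u (n X : ℕ) (hRG : RG 64 (n + 2) X) : ∃ u : ℝ, u = (Real.log X) ^ (1 / 14 : ℝ) ∧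
    u ^ 2 = (Real.log X) ^ (1 / 7 : ℝ) ∧ (2 : ℝ) ^ (64 * 2 ^ n) ≤ u ∧ Real.log X ≤ Real.exp (14 * u) ∧ u ≤ Real.log X := by
  unfold RG at hRG
  have hL1 : (1 : ℝ) ≤ Real.log X := (one_le_pow₀ (by norm_num)).trans hRG
  have hL0 : (0 : ℝ) < Real.log X := by linarith
  refine ⟨(Real.log X) ^ (1 / 14 : ℝ), rfl, ?_, ?_, ?_, ?_⟩
  · rw [← Real.rpow_natCast, ← Real.rpow_mul hL0.le]
    norm_num
  · have h1 : ((2 : ℝ) ^ (64 * 2 ^ n)) ^ 14 ≤ Real.log X := by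
      refine le_trans ?_ hRG
      rw [← pow_mul]
      refine pow_le_pow_right₀ (by norm_num) ?_
      have e : 2 ^ (64 * (n + 2)) = 2 ^ (63 * (n + 2)) * 2 ^ 2 * 2 ^ n := by
        rw [← pow_add, ← pow_add]
        congr 1
        ring
      rw [e]
      have e2 : 224 ≤ 2 ^ (63 * (n + 2)) := by
        calc 224 ≤ 2 ^ 8 := by norm_num
          _ ≤ 2 ^ (63 * (n + 2)) := Nat.pow_le_pow_right (by norm_num) (by omega)
      calc 64 * 2 ^ n * 14 = 224 * 2 ^ 2 * 2 ^ n := by ring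
        _ ≤ 2 ^ (63 * (n + 2)) * 2 ^ 2 * 2 ^ n := Nat.mul_le_mul_right _ (Nat.mul_le_mul_right _ e2)
    have h2 := Real.rpow_le_rpow (by positivity) h1 (by norm_num : (0 : ℝ) ≤ 1 / 14)
    refine le_trans (le_of_eq ?_) h2
    rw [← Real.rpow_natCast ((2 : ℝ) ^ (64 * 2 ^ n)) 14, ← Real.rpow_mul (by positivity)]
    norm_num
  · have h3 : Real.log (Real.log X) = 14 * Real.log ((Real.log X) ^ (1 / 14 : ℝ)) := by
      rw [Real.log_rpow hL0]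
      ring
    have h4 := Real.log_le_sub_one_of_pos (Real.rpow_pos_of_pos hL0 (1 / 14 : ℝ))
    calc Real.log X = Real.exp (Real.log (Real.log X)) := (Real.exp_log hL0).symm
      _ ≤ Real.exp (14 * (Real.log X) ^ (1 / 14 : ℝ)) := Real.exp_le_exp.2 (by linarith)
  · calc (Real.log X) ^ (1 / 14 : ℝ) ≤ (Real.log X) ^ (1 : ℝ) := Real.rpow_le_rpow_of_exponent_le hL1 (by norm_num)
      _ = Real.log X := Real.rpow_one _

end Pool.Agent.Lib.H88U
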