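import Pool.Agent.Lib.H88U.A13
import Pool.Agent.Lib.H88U.A16a
import Pool.Agent.Lib.H88U.A16n
import Pool.Agent.Lib.HUK.A16

/-!
# Uniform module A, chunk A16: the type II theorem, uniform in `k`
-/

open Finset

namespace Pool.Agent.Lib.H88U

open Pool.Agent.HUK
open Pool.Agent.H16U

/-- **Module A of Theorem U**, from module V (`AV`). -/
theorem A16_TIIu (hAV : ∀ d : ℕ, AV d (16 * (d + 1) ^ 3)) : TIIu 64 := by
  intro k hk X hRG s hs α β hα hβ hαs f hf hGG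
  obtain ⟨n, rfl⟩ : ∃ n, k = n + 2 := ⟨k - 2, by omega⟩
  have hn : 1 ≤ n := by omega
  obtain ⟨C, hCb, hstar⟩ := A13_star n (16 * (2 ^ 2 ^ n) ^ 3) hn (by
    have h := hAV (2 ^ 2 ^ n - 1)
    have e : 2 ^ 2 ^ n - 1 + 1 = 2 ^ 2 ^ n := Nat.sub_add_cancel Nat.one_le_two_pow
    rw [e] at h
    exact h) le_rfl
  obtain ⟨u, -, hu2, huT, hLu, huL⟩ := A16n_u n X hRG
  -- sizes
  have hN2 : 2 ≤ 2 ^ n := by
    calc 2 = 2 ^ 1 := rfl
      _ ≤ 2 ^ n := Nat.pow_le_pow_right (by norm_num) hn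
  have hnN : n < 2 ^ n := Nat.lt_two_pow_self
  have hpw : ∀ a b : ℕ, a ≤ b → (2 : ℝ) ^ a ≤ 2 ^ b := fun a b hab => pow_le_pow_right₀ (by norm_num) hab
  have hu128 : (2 : ℝ) ^ 128 ≤ u := (hpw _ _ (by omega)).trans huT
  have hu0 : 0 < u := lt_of_lt_of_le (by positivity) hu128
  have hu1 : 1000 ≤ u := le_trans (by norm_num) hu128
  have hL0 : 0 < Real.log X := by linarith
  have hX0 : (0 : ℝ) < X := by
    rcases Nat.eq_zero_or_pos X with h | h
    · exfalso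
      rw [h] at hL0
      simp at hL0
    · exact_mod_cast h
  have hXe : (X : ℝ) = Real.exp (Real.log X) := (Real.exp_log hX0).symm
  have hsu : u ^ 2 ≤ s := by
    rw [hu2]
    exact hs.lo
  have hsu1 : 1000 * u ≤ s := by
    calc 1000 * u ≤ u * u := mul_le_mul_of_nonneg_right hu1 hu0.le
      _ = u ^ 2 := (sq u).symm
      _ ≤ s := hsu
  have hs1 : 1 ≤ s := by linarith
  have hsL : s ≤ Real.log X := by
    refine hs.hi.trans ?_
    calc (Real.log X) ^ (2 / 5 : ℝ) ≤ (Real.log X) ^ (1 : ℝ) :=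
          Real.rpow_le_rpow_of_exponent_le (by linarith) (by norm_num)
      _ = Real.log X := Real.rpow_one _
  -- the small parameter
  obtain ⟨G, hG⟩ : ∃ G : ℝ, G = 2 ^ (40 * 2 ^ n) := ⟨_, rfl⟩
  have hG0 : 0 < G := by rw [hG]; positivity
  obtain ⟨v, hv⟩ : ∃ v : ℝ, v = s / (4 * G) := ⟨_, rfl⟩
  have hv0 : 0 < v := by
    rw [hv]
    positivity
  have hvu : 20 * u * 2 ^ (n + 3) ≤ v := by
    rw [hv, le_div_iff₀ (by positivity)]
    have e1 : 20 * (2 : ℝ) ^ (n + 3) * (4 * G) ≤ 2 ^ (64 * 2 ^ n) := by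
      rw [hG]
      calc 20 * (2 : ℝ) ^ (n + 3) * (4 * 2 ^ (40 * 2 ^ n)) ≤ 2 ^ 5 * (2 : ℝ) ^ (n + 3) * (2 ^ 2 * 2 ^ (40 * 2 ^ n)) := by
            gcongr <;> norm_num
        _ = 2 ^ (5 + (n + 3) + (2 + 40 * 2 ^ n)) := by rw [← pow_add, ← pow_add, ← pow_add]
        _ ≤ 2 ^ (64 * 2 ^ n) := hpw _ _ (by omega)
    calc 20 * u * 2 ^ (n + 3) * (4 * G) = (20 * (2 : ℝ) ^ (n + 3) * (4 * G)) * u := by ring
      _ ≤ u * u := mul_le_mul_of_nonneg_right (e1.trans huT) hu0.le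
      _ = u ^ 2 := (sq u).symm
      _ ≤ s := hsu
  have h2n3 : (1 : ℝ) ≤ 2 ^ (n + 3) := one_le_pow₀ (by norm_num)
  have hv20 : 20 * u ≤ v := by
    have e : 20 * u * 1 ≤ 20 * u * 2 ^ (n + 3) := mul_le_mul_of_nonneg_left h2n3 (by positivity)
    linarith
  have hvs : v * G = s / 4 := by
    rw [hv]
    field_simp
  obtain ⟨δ, hδd⟩ : ∃ δ : ℝ, δ = Real.exp (-v) := ⟨_, rfl⟩
  have hδ0 : 0 < δ := by rw [hδd]; exact Real.exp_pos _
  have hδi : 1 / δ = Real.exp v := by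
    rw [hδd, Real.exp_neg, one_div, inv_inv]
  have hδi1 : 1 ≤ 1 / δ := by
    rw [hδi]
    exact Real.one_le_exp hv0.le
  have hexpge : ∀ x : ℝ, x + 1 ≤ Real.exp x := Real.add_one_le_exp
  have hδ2 : δ ≤ 1 / 2 := by
    have e1 : 2 ≤ 1 / δ := by
      rw [hδi]
      have := hexpge v
      linarith
    rw [le_div_iff₀ hδ0] at e1
    linarith
  have hδC : (1 / δ) ^ C ≤ Real.exp (s / 4) := by
    calc (1 / δ) ^ C ≤ (1 / δ) ^ (2 ^ (40 * 2 ^ n)) := pow_le_pow_right₀ hδi1 hCb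
      _ = Real.exp (((2 ^ (40 * 2 ^ n) : ℕ) : ℝ) * v) := by rw [hδi, ← Real.exp_nat_mul]
      _ = Real.exp (s / 4) := by
          rw [← hvs, hG]
          push_cast
          rw [mul_comm]
  have hδC' : Real.exp (-(s / 4)) ≤ δ ^ C := by
    have e1 : δ ^ C * (1 / δ) ^ C = 1 := by rw [← mul_pow, mul_one_div_cancel hδ0.ne', one_pow]
    have e2 : 0 < δ ^ C := by positivity
    calc Real.exp (-(s / 4)) = δ ^ C * (1 / δ) ^ C * Real.exp (-(s / 4)) := by rw [e1, one_mul]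
      _ = δ ^ C * ((1 / δ) ^ C * Real.exp (-(s / 4))) := by ring
      _ ≤ δ ^ C * (Real.exp (s / 4) * Real.exp (-(s / 4))) := by gcongr
      _ = δ ^ C := by rw [← Real.exp_add, add_neg_cancel, Real.exp_zero, mul_one]
  obtain ⟨Z, hZd⟩ : ∃ Z : ℝ, Z = Real.exp (-(v / 2 ^ (n + 2))) := ⟨_, rfl⟩
  have hZ0 : 0 ≤ Z := by rw [hZd]; exact (Real.exp_pos _).le
  have hZδ : Z ^ (2 ^ (n + 2)) = δ := by
    rw [hZd, ← Real.exp_nat_mul, hδd]
    congr 1
    push_cast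
    field_simp
  have hc0 := A16n_c0 n hn
  have hc0u : 2 * (16 * ((n : ℝ) + 2) * ((n + 2).factorial : ℝ)) ≤ u :=
    hc0.trans ((hpw _ _ (by omega)).trans huT)
  have h4 : δ * (2 * (16 * (n + 2) * (n + 2).factorial)) ≤ 1 := by
    have e1 : 2 * (16 * ((n : ℝ) + 2) * ((n + 2).factorial : ℝ)) ≤ 1 / δ := by
      rw [hδi]
      have := hexpge v
      linarith
    calc δ * (2 * (16 * (n + 2) * (n + 2).factorial)) ≤ δ * (1 / δ) := mul_le_mul_of_nonneg_left e1 hδ0.le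
      _ = 1 := mul_one_div_cancel hδ0.ne'
  have hdiv : 1 + Real.log X ≤ 1 / δ := by
    rw [hδi]
    have e1 : Real.exp (14 * u) * Real.exp 1 = Real.exp (14 * u + 1) := (Real.exp_add _ _).symm
    have e2 : (2 : ℝ) ≤ Real.exp 1 := by
      have := hexpge 1
      linarith
    have e3 : 1 ≤ Real.exp (14 * u) := Real.one_le_exp (by positivity)
    have e4 : 1 + Real.log X ≤ Real.exp (14 * u) * Real.exp 1 := by
      have e5 := mul_le_mul_of_nonneg_left e2 (Real.exp_pos (14 * u)).le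
      linarith
    rw [e1] at e4
    exact e4.trans (Real.exp_le_exp.2 (by linarith))
  have hX1n : 1 ≤ X := by
    have : 0 < X := by exact_mod_cast hX0
    omega
  have hX1 : (1 : ℝ) ≤ X := by exact_mod_cast hX1n
  have hGl : GG X (n + 1) (f 0) < δ ^ C * (X : ℝ) ^ (n + 2) := by
    refine lt_of_le_of_lt hGG ?_
    have e1 : Real.exp (-s) < Real.exp (-(s / 4)) := Real.exp_lt_exp.2 (by linarith)
    calc (X : ℝ) ^ (n + 2) * Real.exp (-s) < (X : ℝ) ^ (n + 2) * Real.exp (-(s / 4)) :=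
          mul_lt_mul_of_pos_left e1 (by positivity)
      _ ≤ (X : ℝ) ^ (n + 2) * δ ^ C := mul_le_mul_of_nonneg_left hδC' (by positivity)
      _ = δ ^ C * (X : ℝ) ^ (n + 2) := mul_comm _ _
  obtain ⟨R, hRd⟩ : ∃ R : ℝ, R = Real.exp (s / mk 64 (n + 2)) := ⟨_, rfl⟩
  rw [← hRd] at hα hβ
  have hR0 : 0 ≤ R := by rw [hRd]; exact (Real.exp_pos _).le
  set F : ℕ → ℝ := fun a => ‖∑ b ∈ Icc 1 (2 * (n + 2) * X), β b * Psi X (n + 2) f ((a : ℤ) * (b : ℕ))‖ with hF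
  have hF0 : ∀ a, 0 ≤ F a := fun a => norm_nonneg _
  set S : Finset ℕ := (Icc 1 (2 * (n + 2) * X)).filter (fun a => α a ≠ 0) with hSdef
  have hcs : cs (n + 2) * 2 ^ (2 ^ n) ≤ 1 / 16 := by
    unfold cs
    have e : n + 2 - 1 = n + 1 := rfl
    rw [e, pow_add]
    have h5 : ((1 : ℝ) / 2) ^ (2 ^ (n + 1)) ≤ (1 / 2) ^ (2 ^ n) :=
      pow_le_pow_of_le_one (by norm_num) (by norm_num) (Nat.pow_le_pow_right (by norm_num) (by omega))
    calc ((1 : ℝ) / 2) ^ (2 ^ (n + 1)) * (1 / 2) ^ 4 * 2 ^ (2 ^ n)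
        ≤ (1 / 2) ^ (2 ^ n) * (1 / 2) ^ 4 * 2 ^ (2 ^ n) := by
          refine mul_le_mul_of_nonneg_right (mul_le_mul_of_nonneg_right h5 (by positivity)) (by positivity)
      _ = 1 / 16 := by
          rw [one_div, inv_pow]
          field_simp
          norm_num
  have hcs0 : 0 < cs (n + 2) := by
    unfold cs
    positivity
  have hcs1 : cs (n + 2) ≤ 1 / 16 := by
    have h5 : (1 : ℝ) ≤ 2 ^ (2 ^ n) := one_le_pow₀ (by norm_num)
    exact (le_mul_of_one_le_right hcs0.le h5).trans hcs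
  set Ck : ℝ := 2 ^ (2 ^ (n + 1)) * (((n + 2 : ℕ) : ℝ) * (n + 2).factorial) * 2 ^ (n + 1) with hCk
  have hCk0 : 0 ≤ Ck := by positivity
  have hmain : ∑ a ∈ S, F a ≤ ((Nat.log 2 (2 * (n + 2) * X) + 1 : ℕ) : ℝ) * (52 * (X : ℝ) ^ 2 * (Ck * R * Z)) := by
    refine A16_dyadic (2 * (n + 2) * X) S ?_ F hF0 _ (by positivity) ?_
    · intro a ha
      rw [hSdef, mem_filter, mem_Icc] at ha
      refine ⟨?_, ha.1.2⟩
      have h5 := (hαs a ha.2).1
      have h6 := hexpge s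
      have h7 : (2 : ℝ) ≤ a := by linarith
      exact_mod_cast h7
    · rintro i ⟨a, ha, hai, hai2⟩
      rw [hSdef, mem_filter] at ha
      obtain ⟨h5, h6⟩ := hαs a ha.2
      have hK1 : 1 ≤ 2 ^ i := Nat.one_le_two_pow
      have hair : ((2 ^ i : ℕ) : ℝ) ≤ a := by exact_mod_cast hai.le
      have hair2 : (a : ℝ) ≤ 2 * ((2 ^ i : ℕ) : ℝ) := by exact_mod_cast hai2
      have c1 : (1 / δ) ^ C ≤ ((2 ^ i : ℕ) : ℝ) := by
        refine hδC.trans ?_
        have h8 : 2 * Real.exp (s / 4) ≤ Real.exp s := by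
          have e1 : Real.exp s = Real.exp (3 * s / 4) * Real.exp (s / 4) := by
            rw [← Real.exp_add]
            congr 1
            ring
          have e2 : 2 ≤ Real.exp (3 * s / 4) := by
            have e3 := hexpge (3 * s / 4)
            linarith
          rw [e1]
          exact mul_le_mul_of_nonneg_right e2 (Real.exp_pos _).le
        linarith
      have hKcs : ((2 ^ i : ℕ) : ℝ) ≤ (X : ℝ) ^ cs (n + 2) := hair.trans h6
      have c2 : (1 / δ) ^ C * ((2 ^ i : ℕ) : ℝ) ^ (2 ^ 2 ^ n) ≤ X := by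
        have h8 : ((2 ^ i : ℕ) : ℝ) ^ (2 ^ 2 ^ n) ≤ ((X : ℝ) ^ cs (n + 2)) ^ (2 ^ 2 ^ n) :=
          pow_le_pow_left₀ (by positivity) hKcs _
        have h9 : ((X : ℝ) ^ cs (n + 2)) ^ (2 ^ 2 ^ n) = (X : ℝ) ^ (cs (n + 2) * 2 ^ (2 ^ n)) := by
          rw [← Real.rpow_natCast, ← Real.rpow_mul hX0.le]
          push_cast
          rfl
        have h10 : (X : ℝ) ^ (cs (n + 2) * 2 ^ (2 ^ n)) ≤ (X : ℝ) ^ (1 / 16 : ℝ) :=
          Real.rpow_le_rpow_of_exponent_le hX1 hcs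
        have h11 : Real.exp (s / 4) ≤ (X : ℝ) ^ (1 / 2 : ℝ) := by
          rw [Real.rpow_def_of_pos hX0]
          exact Real.exp_le_exp.2 (by linarith)
        calc (1 / δ) ^ C * ((2 ^ i : ℕ) : ℝ) ^ (2 ^ 2 ^ n) ≤ (X : ℝ) ^ (1 / 2 : ℝ) * (X : ℝ) ^ (1 / 16 : ℝ) :=
              mul_le_mul (hδC.trans h11) (h8.trans (h9.le.trans h10)) (by positivity) (by positivity)
          _ = (X : ℝ) ^ ((1 / 2 : ℝ) + 1 / 16) := (Real.rpow_add hX0 _ _).symm
          _ ≤ (X : ℝ) ^ (1 : ℝ) := Real.rpow_le_rpow_of_exponent_le hX1 (by norm_num)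
          _ = X := Real.rpow_one _
      have c3 : 2 * (16 * (n + 2) * (n + 2).factorial) * 2 ^ i ≤ X := by
        have h8 : ((2 ^ i : ℕ) : ℝ) ≤ (X : ℝ) ^ ((1 : ℝ) / 2) :=
          hKcs.trans (Real.rpow_le_rpow_of_exponent_le hX1 (by linarith))
        have h9 : (X : ℝ) ^ ((1 : ℝ) / 2) * (X : ℝ) ^ ((1 : ℝ) / 2) = X := by
          rw [← Real.rpow_add hX0]
          norm_num
        have e5 : 2 * (16 * ((n : ℝ) + 2) * ((n + 2).factorial : ℝ)) ≤ (X : ℝ) ^ ((1 : ℝ) / 2) := by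
          rw [Real.rpow_def_of_pos hX0]
          have e6 := hexpge (Real.log X * (1 / 2))
          linarith
        have h10 : (2 * (16 * ((n : ℝ) + 2) * ((n + 2).factorial : ℕ))) * ((2 ^ i : ℕ) : ℝ) ≤ X := by
          calc (2 * (16 * ((n : ℝ) + 2) * ((n + 2).factorial : ℕ))) * ((2 ^ i : ℕ) : ℝ)
              ≤ (X : ℝ) ^ ((1 : ℝ) / 2) * (X : ℝ) ^ ((1 : ℝ) / 2) := mul_le_mul e5 h8 (by positivity) (by positivity)
            _ = X := h9
        exact_mod_cast h10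
      exact A16_one n hn C hstar δ Z hδ0 hδ2 hZ0 hZδ X (2 ^ i) hX1n hK1 c1 c2 c3 h4 hdiv β R hR0
        (fun b => (hβ b)) f hf hGl
  have hT : ‖∑ a ∈ Icc 1 (2 * (n + 2) * X), ∑ b ∈ Icc 1 (2 * (n + 2) * X), α a * β b * Psi X (n + 2) f ((a : ℤ) * b)‖ ≤
      R * ∑ a ∈ S, F a := by
    rw [hSdef, Finset.sum_filter, Finset.mul_sum]
    refine (norm_sum_le _ _).trans (Finset.sum_le_sum fun a _ => ?_)
    have h5 : ∑ b ∈ Icc 1 (2 * (n + 2) * X), α a * β b * Psi X (n + 2) f ((a : ℤ) * b) =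
        α a * ∑ b ∈ Icc 1 (2 * (n + 2) * X), β b * Psi X (n + 2) f ((a : ℤ) * (b : ℕ)) := by
      rw [Finset.mul_sum]
      refine Finset.sum_congr rfl fun b _ => ?_
      rw [mul_assoc]
    rw [h5, norm_mul]
    split_ifs with h6
    · exact mul_le_mul_of_nonneg_right (hα a) (norm_nonneg _)
    · rw [not_ne_iff.1 h6]
      simp
  refine hT.trans ((mul_le_mul_of_nonneg_left hmain hR0).trans ?_)
  -- the logarithm
  have hlog : ((Nat.log 2 (2 * (n + 2) * X) + 1 : ℕ) : ℝ) ≤ Real.exp (2 + 14 * u) := by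
    have h8 := Nat.pow_log_le_self 2 (x := 2 * (n + 2) * X) (by positivity)
    have h9 : ((2 : ℝ) ^ (Nat.log 2 (2 * (n + 2) * X))) ≤ ((2 * (n + 2) * X : ℕ) : ℝ) := by exact_mod_cast h8
    have h10 := Real.log_le_log (by positivity) h9
    rw [Real.log_pow] at h10
    have h11 : (1 : ℝ) / 2 ≤ Real.log 2 := by linarith [Real.log_two_gt_d9]
    have h12 : (0 : ℝ) ≤ Nat.log 2 (2 * (n + 2) * X) := by positivity
    have h13 : Real.log ((2 * (n + 2) * X : ℕ) : ℝ) = Real.log (2 * ((n : ℝ) + 2)) + Real.log X := by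
      push_cast
      rw [Real.log_mul (by positivity) hX0.ne']
    rw [h13] at h10
    have h14 : Real.log (2 * ((n : ℝ) + 2)) ≤ u := by
      have e1 : 2 * ((n : ℝ) + 2) ≤ u := by
        refine le_trans ?_ hc0u
        have e2 : (1 : ℝ) ≤ ((n + 2).factorial : ℝ) := by exact_mod_cast Nat.factorial_pos (n + 2)
        have e3 : 0 ≤ (n : ℝ) + 2 := by positivity
        have e4 := mul_le_mul_of_nonneg_left e2 e3
        linarith
      have e3 := Real.log_le_sub_one_of_pos (by positivity : (0 : ℝ) < 2 * ((n : ℝ) + 2))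
      linarith
    have h15 := mul_le_mul_of_nonneg_left h11 h12
    have h16 : ((Nat.log 2 (2 * (n + 2) * X) : ℕ) : ℝ) + 1 ≤ 4 * Real.log X := by linarith
    have h17 : (4 : ℝ) ≤ Real.exp 2 := by
      have e1 : Real.exp 2 = Real.exp 1 * Real.exp 1 := by
        rw [← Real.exp_add]
        norm_num
      have e2 : (2 : ℝ) ≤ Real.exp 1 := by
        have := hexpge 1
        linarith
      rw [e1]
      calc (4 : ℝ) = 2 * 2 := by norm_num
        _ ≤ Real.exp 1 * Real.exp 1 := mul_le_mul e2 e2 (by norm_num) (Real.exp_pos 1).le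
    push_cast
    rw [Real.exp_add]
    calc ((Nat.log 2 (2 * (n + 2) * X) : ℕ) : ℝ) + 1 ≤ 4 * Real.log X := h16
      _ ≤ Real.exp 2 * Real.exp (14 * u) := mul_le_mul h17 hLu hL0.le (by positivity)
  have hCku : 52 * Ck ≤ Real.exp u := by
    have e1 := A16n_Ck n hn
    rw [← hCk] at e1
    have e2 : 52 * Ck ≤ u := e1.trans ((hpw _ _ (by omega)).trans huT)
    have e3 := hexpge u
    linarith
  have hmk : s / mk 64 (n + 2) * 3 ≤ v / 2 ^ (n + 3) := by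
    rw [hv, div_div, div_mul_eq_mul_div, div_le_div_iff₀ (by unfold Pool.Agent.H16U.mk; positivity) (by positivity)]
    have e1 : 3 * (4 * G * 2 ^ (n + 3)) ≤ mk 64 (n + 2) := by
      unfold Pool.Agent.H16U.mk
      rw [hG]
      calc 3 * (4 * (2 : ℝ) ^ (40 * 2 ^ n) * 2 ^ (n + 3)) ≤ 2 ^ 2 * (2 ^ 2 * (2 : ℝ) ^ (40 * 2 ^ n) * 2 ^ (n + 3)) := by
            gcongr <;> norm_num
        _ = 2 ^ (2 + (2 + 40 * 2 ^ n + (n + 3))) := by rw [← pow_add, ← pow_add, ← pow_add]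
        _ ≤ 2 ^ (64 * 2 ^ (n + 2)) := by
            refine hpw _ _ ?_
            rw [pow_add]
            omega
    calc s * 3 * (4 * G * 2 ^ (n + 3)) = s * (3 * (4 * G * 2 ^ (n + 3))) := by ring
      _ ≤ s * mk 64 (n + 2) := mul_le_mul_of_nonneg_left e1 (by linarith)
  have hfin : v / 2 ^ (n + 2) = 2 * (v / 2 ^ (n + 3)) := by
    rw [pow_succ (2 : ℝ) (n + 2)]
    field_simp
  have h20 : 20 * u ≤ v / 2 ^ (n + 3) := by
    rw [le_div_iff₀ (by positivity)]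
    exact hvu
  calc R * (((Nat.log 2 (2 * (n + 2) * X) + 1 : ℕ) : ℝ) * (52 * (X : ℝ) ^ 2 * (Ck * R * Z)))
      = (X : ℝ) ^ 2 * ((((Nat.log 2 (2 * (n + 2) * X) + 1 : ℕ) : ℝ) * (52 * Ck)) * (R * R * Z)) := by ring
    _ ≤ (X : ℝ) ^ 2 * ((Real.exp (2 + 14 * u) * Real.exp u) * (R * R * Z)) := by
        refine mul_le_mul_of_nonneg_left ?_ (by positivity)
        refine mul_le_mul_of_nonneg_right ?_ (by positivity)
        exact mul_le_mul hlog hCku (by positivity) (by positivity)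
    _ = (X : ℝ) ^ 2 * Real.exp (2 + 14 * u + u + (s / mk 64 (n + 2) + s / mk 64 (n + 2) + -(v / 2 ^ (n + 2)))) := by
        rw [hRd, hZd]
        simp only [Real.exp_add]
    _ ≤ (X : ℝ) ^ 2 * Real.exp (-(s / mk 64 (n + 2))) := by
        refine mul_le_mul_of_nonneg_left (Real.exp_le_exp.2 ?_) (by positivity)
        rw [hfin]
        linarith

end Pool.Agent.Lib.H88U
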