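import Pool.Agent.Lib.HUK.A8
import Pool.Agent.Lib.H16U.Defs

/-!
# Uniform module A, chunk A8: `A8_major` with an explicit exponent
-/

open Finset

namespace Pool.Agent.Lib.H88U

open Pool.Agent.HUK
open Pool.Agent.Lib.H84V
open Pool.Agent.H16U (AV)

private theorem a8_Q (r : ℕ) : ∀ a : ℤ, 1 ≤ a → 1 ≤ Qf (List.replicate r 1) a ∧
    Qf (List.replicate r 1) a ≤ (a + r) ^ (2 ^ r) := by
  induction r with
  | zero =>
    intro a ha
    simp only [List.replicate_zero, Qf, pow_zero, pow_one, Nat.cast_zero, add_zero]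
    exact ⟨ha, le_rfl⟩
  | succ n ih =>
    intro a ha
    obtain ⟨h1, h2⟩ := ih a ha
    obtain ⟨h3, h4⟩ := ih (a + 1) (by omega)
    rw [List.replicate_succ]
    simp only [Qf]
    refine ⟨by nlinarith, ?_⟩
    have h5 : (a + (n : ℤ)) ^ (2 ^ n) ≤ (a + ((n + 1 : ℕ) : ℤ)) ^ (2 ^ n) :=
      pow_le_pow_left₀ (by omega) (by push_cast; omega) _
    have h6 : a + 1 + (n : ℤ) = a + ((n + 1 : ℕ) : ℤ) := by push_cast; ring
    rw [h6] at h4
    calc Qf (List.replicate n 1) a * Qf (List.replicate n 1) (a + 1) ≤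
          (a + ((n + 1 : ℕ) : ℤ)) ^ (2 ^ n) * (a + ((n + 1 : ℕ) : ℤ)) ^ (2 ^ n) :=
          mul_le_mul (h2.trans h5) h4 (by omega) (by positivity)
      _ = (a + ((n + 1 : ℕ) : ℤ)) ^ (2 ^ (n + 1)) := by
          rw [← pow_add]
          congr 1
          rw [pow_succ]
          ring

private theorem a8_nc (r : ℕ) : (Df (List.replicate r 1) 1).natAbs ≤ 2 ^ (r * 2 ^ r) := by
  obtain ⟨h1, h2⟩ := a8_Q r 1 le_rfl
  have h3 := pf_D_eq r 1
  have h4 : ∏ i ∈ range (r + 1), ((1 : ℤ) + i) = ((r + 1).factorial : ℤ) := by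
    have h5 := Finset.prod_range_add_one_eq_factorial (r + 1)
    rw [← h5]
    push_cast
    exact prod_congr rfl fun i _ => add_comm _ _
  rw [h4, Nat.factorial_succ] at h3
  have hf0 : (0 : ℤ) < (r.factorial : ℤ) := by exact_mod_cast Nat.factorial_pos r
  have h5 : Df (List.replicate r 1) 1 * ((r : ℤ) + 1) = Qf (List.replicate r 1) 1 := by
    have h6 : (r.factorial : ℤ) * (Df (List.replicate r 1) 1 * ((r : ℤ) + 1)) =
        (r.factorial : ℤ) * Qf (List.replicate r 1) 1 := by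
      rw [← h3]
      push_cast
      ring
    exact mul_left_cancel₀ hf0.ne' h6
  have hD : 1 ≤ Df (List.replicate r 1) 1 := by
    by_contra hcon
    push Not at hcon
    have h6 : Df (List.replicate r 1) 1 ≤ 0 := by omega
    nlinarith [Nat.cast_nonneg (α := ℤ) r]
  have h7 : Df (List.replicate r 1) 1 ≤ Qf (List.replicate r 1) 1 := by
    rw [← h5]
    nlinarith [Nat.cast_nonneg (α := ℤ) r]
  have h8 : ((Df (List.replicate r 1) 1).natAbs : ℤ) ≤ ((2 ^ (r * 2 ^ r) : ℕ) : ℤ) := by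
    rw [Int.natCast_natAbs, abs_of_nonneg (by omega)]
    refine h7.trans (h2.trans ?_)
    push_cast
    rw [pow_mul]
    refine pow_le_pow_left₀ (by positivity) ?_ _
    have h9 : r < 2 ^ r := Nat.lt_two_pow_self
    have h10 : 1 + r ≤ 2 ^ r := by omega
    exact_mod_cast h10
  exact_mod_cast h8

open Classical in
/-- `A8_major` with an explicit exponent. -/
theorem A8_major (r C0 : ℕ) (hC0 : AV (2 ^ r - 1) C0) : ∃ C : ℕ,
    C = (2 * r + 2) * C0 + r * 2 ^ r + 2 ^ r ∧ ∀ δ : ℝ, 0 < δ → δ ≤ 1 / 2 → ∀ K H2 : ℕ, (1 / δ) ^ C ≤ H2 → δ * K ≤ H2 →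
    H2 ≤ K → ∀ ψ ε : ℝ, 0 ≤ ε → ε ≤ δ ^ C →
    δ * (K * (H2 : ℝ) ^ r) ≤ (((bxS r H2 ×ˢ Ioc (K : ℤ) (2 * K)).filter fun p : (Fin r → ℤ) × ℤ =>
      Vt K (List.ofFn p.1) p.2 ∧ nd (ψ * Df (List.ofFn p.1) p.2) ≤ ε).card : ℝ) →
    ∃ q : ℕ, 1 ≤ q ∧ (q : ℝ) ≤ (1 / δ) ^ C ∧ nd (q * ψ) ≤ (1 / δ) ^ C * ε / (K : ℝ) ^ (2 ^ r - 1) := by
  obtain ⟨c, hcd⟩ : ∃ c : ℤ, c = Df (List.replicate r 1) 1 := ⟨_, rfl⟩
  have hc0 : c ≠ 0 := by
    rw [hcd]
    exact pf_D_ne r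
  obtain ⟨nc, hnc⟩ : ∃ nc : ℕ, nc = c.natAbs := ⟨_, rfl⟩
  have hcn : 1 ≤ nc := by omega
  have hnc2 : nc ≤ 2 ^ (r * 2 ^ r) := by
    rw [hnc, hcd]
    exact a8_nc r
  have hcc : (c : ℝ) = nc ∨ (c : ℝ) = -nc := by
    have h1 : c = (nc : ℤ) ∨ c = -(nc : ℤ) := by omega
    rcases h1 with h1 | h1
    · left
      rw [h1]
      norm_num
    · right
      rw [h1]
      norm_num
  refine ⟨(2 * r + 2) * C0 + r * 2 ^ r + 2 ^ r, rfl, fun δ hδ hδ2 K H2 hH hδK hHK ψ ε hε hεδ hcard => ?_⟩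
  have h2r := Nat.one_le_two_pow (n := r)
  have hδi : 2 ≤ 1 / δ := by
    rw [le_div_iff₀ hδ]
    linarith
  have hδi1 : 1 ≤ 1 / δ := by linarith
  have hδ1 : δ ≤ 1 := by linarith
  have hmono : ∀ a b : ℕ, a ≤ b → (1 / δ) ^ a ≤ (1 / δ) ^ b := fun a b hab => pow_le_pow_right₀ hδi1 hab
  have hmono' : ∀ a b : ℕ, a ≤ b → δ ^ b ≤ δ ^ a := fun a b hab => pow_le_pow_of_le_one hδ.le hδ1 hab
  have hHr1 : (1 : ℝ) ≤ H2 := (one_le_pow₀ hδi1).trans hH
  have hH1 : 1 ≤ H2 := by exact_mod_cast hHr1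
  have hHr0 : (0 : ℝ) < H2 := by linarith
  have hKr0 : (0 : ℝ) < K := by
    have : 0 < K := by omega
    exact_mod_cast this
  obtain ⟨G, hGd⟩ : ∃ G : Finset ((Fin r → ℤ) × ℤ), G = (bxS r H2 ×ˢ Ioc (K : ℤ) (2 * K)).filter
    fun p : (Fin r → ℤ) × ℤ => Vt K (List.ofFn p.1) p.2 ∧ nd (ψ * Df (List.ofFn p.1) p.2) ≤ ε := ⟨_, rfl⟩
  rw [← hGd] at hcard
  have hG : G ⊆ bxS r H2 ×ˢ Ioc (K : ℤ) (2 * K) := by
    rw [hGd]
    exact Finset.filter_subset _ _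
  obtain ⟨b, hb⟩ := a8_line r K H2 hH1 hHK G hG δ hδ hcard
  obtain ⟨δ', hδ'd⟩ : ∃ δ' : ℝ, δ' = δ / (2 * 3 ^ r) := ⟨_, rfl⟩
  rw [← hδ'd] at hb
  have h3r : (1 : ℝ) ≤ 3 ^ r := one_le_pow₀ (by norm_num)
  have hδ'0 : 0 < δ' := by rw [hδ'd]; positivity
  have hδ'h : δ' ≤ 1 / 2 := by
    rw [hδ'd, div_le_iff₀ (by positivity)]
    nlinarith
  have hδ'i : 1 / δ' ≤ (1 / δ) ^ (2 * r + 2) := by
    have h1 : 1 / δ' = 2 * 3 ^ r * (1 / δ) := by
      rw [hδ'd]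
      field_simp
    have h2 : (3 : ℝ) ^ r ≤ (1 / δ) ^ (2 * r) := by
      rw [pow_mul]
      refine pow_le_pow_left₀ (by norm_num) ?_ r
      nlinarith
    rw [h1, show 2 * r + 2 = 1 + 2 * r + 1 by ring, pow_succ, pow_add, pow_one]
    refine mul_le_mul_of_nonneg_right ?_ (by positivity)
    exact mul_le_mul hδi h2 (by positivity) (by positivity)
  have hδ'pow : (1 / δ') ^ C0 ≤ (1 / δ) ^ ((2 * r + 2) * C0) := by
    rw [pow_mul]
    exact pow_le_pow_left₀ (by positivity) hδ'i C0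
  have hδ'pow2 : δ ^ ((2 * r + 2) * C0) ≤ δ' ^ C0 := by
    rw [pow_mul]
    refine pow_le_pow_left₀ (by positivity) ?_ C0
    have h1 : 1 / δ' ≤ 1 / δ ^ (2 * r + 2) := by
      rw [← one_div_pow]
      exact hδ'i
    exact le_of_one_div_le_one_div hδ'0 h1
  have hPF := pf_D (List.ofFn b.1) b.2 1
  rw [List.length_ofFn, ← hcd] at hPF
  obtain ⟨q, hq1, hqB, hqn⟩ := hC0 δ' hδ'0 hδ'h H2 ((hδ'pow.trans (hmono _ _ (by omega))).trans hH) c _ ψ ε hPF hε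
    (hεδ.trans ((hmono' _ _ (by omega)).trans hδ'pow2)) (by
      refine hb.trans ?_
      have h1 : ((range H2).filter fun k : ℕ => ((fun i => b.1 i + (k : ℤ)), b.2 + (k : ℤ)) ∈ G) ⊆
          (range H2).filter fun k : ℕ => nd (ψ * Df ((List.ofFn b.1).map (· + (k : ℤ))) (b.2 + 1 * (k : ℤ))) ≤ ε := by
        intro k hk
        rw [mem_filter] at hk ⊢
        refine ⟨hk.1, ?_⟩
        have h2 := hk.2
        rw [hGd, mem_filter] at h2
        have h3 := h2.2.2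
        simp only at h3
        rw [List.map_ofFn, one_mul]
        exact h3
      exact_mod_cast Finset.card_le_card h1)
  refine ⟨q * nc, Nat.succ_le_of_lt (Nat.mul_pos hq1 hcn), ?_, ?_⟩
  · push_cast
    have h1 : (nc : ℝ) ≤ (1 / δ) ^ (r * 2 ^ r) := by
      have h2 : (nc : ℝ) ≤ 2 ^ (r * 2 ^ r) := by
        exact_mod_cast hnc2
      exact h2.trans (pow_le_pow_left₀ (by norm_num) hδi _)
    calc (q : ℝ) * nc ≤ (1 / δ) ^ ((2 * r + 2) * C0) * (1 / δ) ^ (r * 2 ^ r) :=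
          mul_le_mul (hqB.trans hδ'pow) h1 (by positivity) (by positivity)
      _ = (1 / δ) ^ ((2 * r + 2) * C0 + r * 2 ^ r) := by rw [← pow_add]
      _ ≤ _ := hmono _ _ (by omega)
  · have h1 : nd (((q * nc : ℕ) : ℝ) * ψ) = nd (q * (c * ψ)) := by
      push_cast
      rcases hcc with h2 | h2
      · rw [h2]
        congr 1
        ring
      · rw [h2, ← nd_neg]
        congr 1
        ring
    rw [h1]
    refine hqn.trans ?_
    have h6 : (δ * K) ^ (2 ^ r - 1) ≤ (H2 : ℝ) ^ (2 ^ r - 1) := pow_le_pow_left₀ (by positivity) hδK _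
    calc (1 / δ') ^ C0 * ε / (H2 : ℝ) ^ (2 ^ r - 1) ≤ (1 / δ) ^ ((2 * r + 2) * C0) * ε / (δ * K) ^ (2 ^ r - 1) := by
          refine div_le_div₀ (by positivity) (mul_le_mul_of_nonneg_right hδ'pow hε) (by positivity) h6
      _ = (1 / δ) ^ ((2 * r + 2) * C0 + (2 ^ r - 1)) * ε / (K : ℝ) ^ (2 ^ r - 1) := by
          rw [mul_pow, pow_add, one_div_pow (n := 2 ^ r - 1)]
          field_simp
      _ ≤ _ := by
          have h7 := Nat.one_le_two_pow (n := r)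
          refine div_le_div_of_nonneg_right (mul_le_mul_of_nonneg_right (hmono _ _ ?_) hε) (by positivity)
          omega

end Pool.Agent.Lib.H88U
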