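import Pool.Agent.Lib.H88U.A16
import Pool.Agent.Lib.H9V.V5

/-!
# Uniform module A: the interface `TIIu 64`
-/

open Finset

namespace Pool.Agent.Lib.H88U

open Pool.Agent.HUK
open Pool.Agent.H16U

/-- **Module A of Theorem U.** -/
theorem TIIu_64 : TIIu 64 :=
  A16_TIIu fun d δ hδ hδ2 L hL c P ψ ε hP hε hεδ hcard =>
    Pool.Agent.Lib.H9V.av_explicit d δ hδ hδ2 L hL c P ψ ε hP hε hεδ hcard

theorem exists_TIIu : ∃ B : ℕ, TIIu B := ⟨64, TIIu_64⟩

end Pool.Agent.Lib.H88U
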