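import Pool.Agent.Lib.HUK.LL6

/-!
# Uniform module A, chunk L6: products of pairs without a divisor bound

The multiplicative energy of `(K, 2K]` is at most `8 K² (1 + log (2K))`. Hence the products `n = p.1 p.2` with more than `D`
representations contribute little: `∑_p Φ(p.1 p.2) ≤ D ∑_n Φ(n) + B 8 K² (1 + log (2K)) / D` for `0 ≤ Φ ≤ B`.
-/

open Finset

namespace Pool.Agent.Lib.H88U

/-- The sum of the greatest common divisors. -/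
theorem L6_gcdsum (N : ℕ) :
    ∑ p ∈ Ioc 0 N ×ˢ Ioc 0 N, ((Nat.gcd p.1 p.2 : ℕ) : ℝ) ≤ (N : ℝ) ^ 2 * (1 + Real.log N) := by
  have h1 : ∀ p ∈ Ioc 0 N ×ˢ Ioc 0 N, ((Nat.gcd p.1 p.2 : ℕ) : ℝ) ≤
      ∑ g ∈ Ioc 0 N, if g ∣ p.1 ∧ g ∣ p.2 then (g : ℝ) else 0 := by
    intro p hp
    rw [mem_product, mem_Ioc, mem_Ioc] at hp
    have hg : Nat.gcd p.1 p.2 ∈ Ioc 0 N := by
      rw [mem_Ioc]
      exact ⟨Nat.gcd_pos_of_pos_left _ hp.1.1, (Nat.gcd_le_left _ hp.1.1).trans hp.1.2⟩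
    have h2 := single_le_sum (f := fun g : ℕ => if g ∣ p.1 ∧ g ∣ p.2 then (g : ℝ) else 0) (s := Ioc 0 N)
      (fun g _ => by split_ifs <;> positivity) hg
    simp only [Nat.gcd_dvd_left, Nat.gcd_dvd_right, and_self, if_true] at h2
    exact h2
  refine (sum_le_sum h1).trans ?_
  rw [sum_comm]
  have h2 : ∀ g ∈ Ioc 0 N, (∑ p ∈ Ioc 0 N ×ˢ Ioc 0 N, if g ∣ p.1 ∧ g ∣ p.2 then (g : ℝ) else 0) ≤
      (N : ℝ) ^ 2 * (g : ℝ)⁻¹ := by
    intro g hg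
    rw [mem_Ioc] at hg
    have hg0 : (0 : ℝ) < g := by exact_mod_cast hg.1
    rw [← sum_filter, sum_const, nsmul_eq_mul]
    have h3 : ((Ioc 0 N ×ˢ Ioc 0 N).filter fun p : ℕ × ℕ => g ∣ p.1 ∧ g ∣ p.2) =
        (Ioc 0 N).filter (fun a => g ∣ a) ×ˢ (Ioc 0 N).filter (fun a => g ∣ a) := by
      ext p
      simp only [mem_filter, mem_product]
      tauto
    rw [h3, card_product, Nat.Ioc_filter_dvd_card_eq_div]
    push_cast
    have h4 : ((N / g : ℕ) : ℝ) ≤ N / g := Nat.cast_div_le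
    have h5 : ((N / g : ℕ) : ℝ) * ((N / g : ℕ) : ℝ) ≤ (N / g : ℝ) * (N / g) :=
      mul_le_mul h4 h4 (by positivity) (by positivity)
    calc ((N / g : ℕ) : ℝ) * ((N / g : ℕ) : ℝ) * g ≤ (N / g : ℝ) * (N / g) * g :=
          mul_le_mul_of_nonneg_right h5 hg0.le
      _ = (N : ℝ) ^ 2 * (g : ℝ)⁻¹ := by field_simp
  refine (sum_le_sum h2).trans ?_
  rw [← mul_sum]
  refine mul_le_mul_of_nonneg_left ?_ (by positivity)
  have h3 := harmonic_le_one_add_log N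
  refine le_trans (le_of_eq ?_) h3
  unfold harmonic
  push_cast
  clear h1 h2 h3
  induction N with
  | zero => simp
  | succ n ih =>
    rw [sum_Ioc_succ_top (Nat.zero_le n), sum_range_succ, ih]
    push_cast
    ring

/-- For `b, c` in `(K, 2K]` there are at most `2 gcd(b, c)` pairs `(b', c')` with `b b' = c c'`. -/
theorem L6_fib (K b c : ℕ) (hb : b ∈ Ioc K (2 * K)) (hc : c ∈ Ioc K (2 * K)) :
    ((((Ioc K (2 * K) ×ˢ Ioc K (2 * K)).filter fun y : ℕ × ℕ => b * y.1 = c * y.2).card : ℕ) : ℝ) ≤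
      2 * (Nat.gcd b c : ℝ) := by
  rw [mem_Ioc] at hb hc
  have hb0 : 0 < b := by omega
  have hc0 : 0 < c := by omega
  have hg0 : 0 < Nat.gcd b c := Nat.gcd_pos_of_pos_left _ hb0
  obtain ⟨u, hu⟩ := Nat.gcd_dvd_left b c
  obtain ⟨v, hv⟩ := Nat.gcd_dvd_right b c
  have hv0 : 0 < v := by
    rcases Nat.eq_zero_or_pos v with h | h
    · rw [h, Nat.mul_zero] at hv
      omega
    · exact h
  have hcop : Nat.Coprime v u := by
    have h1 : Nat.gcd b c * Nat.gcd u v = Nat.gcd b c * 1 := by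
      rw [← Nat.gcd_mul_left, ← hu, ← hv, Nat.mul_one]
    have h2 := Nat.eq_of_mul_eq_mul_left hg0 h1
    rw [Nat.gcd_comm] at h2
    exact h2
  have h1 : ((Ioc K (2 * K) ×ˢ Ioc K (2 * K)).filter fun y : ℕ × ℕ => b * y.1 = c * y.2).card ≤
      ((Ioc 0 (2 * K)).filter fun a => v ∣ a).card := by
    refine card_le_card_of_injOn (fun y : ℕ × ℕ => y.1) ?_ ?_
    · intro y hy
      have hy' := mem_filter.mp (mem_coe.mp hy)
      have hy1 := mem_product.mp hy'.1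
      have hy2 := mem_Ioc.mp hy1.1
      rw [mem_coe, mem_filter, mem_Ioc]
      refine ⟨⟨lt_of_le_of_lt (Nat.zero_le K) hy2.1, hy2.2⟩, ?_⟩
      have h2 : Nat.gcd b c * (u * y.1) = Nat.gcd b c * (v * y.2) := by
        rw [← Nat.mul_assoc, ← Nat.mul_assoc, ← hu, ← hv]
        exact hy'.2
      have h3 := Nat.eq_of_mul_eq_mul_left hg0 h2
      exact hcop.dvd_of_dvd_mul_left ⟨y.2, h3⟩
    · intro y hy z hz hyz
      have hy' := mem_filter.mp (mem_coe.mp hy)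
      have hz' := mem_filter.mp (mem_coe.mp hz)
      have hyz' : y.1 = z.1 := hyz
      have h2 : c * y.2 = c * z.2 := by rw [← hy'.2, ← hz'.2, hyz']
      exact Prod.ext hyz' (Nat.eq_of_mul_eq_mul_left hc0 h2)
  rw [Nat.Ioc_filter_dvd_card_eq_div] at h1
  have h2 : ((2 * K / v : ℕ) : ℝ) ≤ ((2 * K : ℕ) : ℝ) / v := Nat.cast_div_le
  refine (Nat.cast_le.mpr h1).trans (h2.trans ?_)
  have hv' : (0 : ℝ) < v := by exact_mod_cast hv0
  rw [div_le_iff₀ hv']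
  have h3 : ((Nat.gcd b c : ℕ) : ℝ) * v = c := by exact_mod_cast hv.symm
  rw [mul_assoc, h3]
  have h4 : (K : ℝ) ≤ c := by exact_mod_cast hc.1.le
  push_cast
  linarith

/-- Multiplicative energy. -/
theorem L6_energy (K : ℕ) :
    ((((Ioc K (2 * K) ×ˢ Ioc K (2 * K)) ×ˢ (Ioc K (2 * K) ×ˢ Ioc K (2 * K))).filter
      fun x : (ℕ × ℕ) × ℕ × ℕ => x.1.1 * x.1.2 = x.2.1 * x.2.2).card : ℝ) ≤ 8 * (K : ℝ) ^ 2 * (1 + Real.log (2 * K)) := by
  classical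
  obtain ⟨S, hS⟩ : ∃ S, S = (((Ioc K (2 * K) ×ˢ Ioc K (2 * K)) ×ˢ (Ioc K (2 * K) ×ˢ Ioc K (2 * K))).filter
      fun x : (ℕ × ℕ) × ℕ × ℕ => x.1.1 * x.1.2 = x.2.1 * x.2.2) := ⟨_, rfl⟩
  rw [← hS]
  have hmaps : ∀ x ∈ S, (x.1.1, x.2.1) ∈ Ioc K (2 * K) ×ˢ Ioc K (2 * K) := by
    intro x hx
    rw [hS, mem_filter, mem_product, mem_product, mem_product] at hx
    rw [mem_product]
    exact ⟨hx.1.1.1, hx.1.2.1⟩
  have h1 := card_eq_sum_card_fiberwise hmaps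
  have h2 : ∀ p ∈ Ioc K (2 * K) ×ˢ Ioc K (2 * K), (((S.filter fun x => (x.1.1, x.2.1) = p).card : ℕ) : ℝ) ≤
      2 * (Nat.gcd p.1 p.2 : ℝ) := by
    intro p hp
    rw [mem_product] at hp
    refine le_trans ?_ (L6_fib K p.1 p.2 hp.1 hp.2)
    have h3 : (S.filter fun x => (x.1.1, x.2.1) = p).card ≤
        ((Ioc K (2 * K) ×ˢ Ioc K (2 * K)).filter fun y : ℕ × ℕ => p.1 * y.1 = p.2 * y.2).card := by
      refine card_le_card_of_injOn (fun x : (ℕ × ℕ) × ℕ × ℕ => (x.1.2, x.2.2)) ?_ ?_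
      · intro x hx
        have hx' := mem_filter.mp (mem_coe.mp hx)
        have hx1 := hx'.1
        rw [hS, mem_filter, mem_product, mem_product, mem_product] at hx1
        have hx2 := hx'.2
        rw [Prod.ext_iff] at hx2
        rw [mem_coe, mem_filter, mem_product]
        refine ⟨⟨hx1.1.1.2, hx1.1.2.2⟩, ?_⟩
        show p.1 * x.1.2 = p.2 * x.2.2
        rw [← hx2.1, ← hx2.2]
        exact hx1.2
      · intro x hx y hy hxy
        have hx' := (mem_filter.mp (mem_coe.mp hx)).2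
        have hy' := (mem_filter.mp (mem_coe.mp hy)).2
        have h5 : (x.1.1, x.2.1) = (y.1.1, y.2.1) := hx'.trans hy'.symm
        have h6 : (x.1.2, x.2.2) = (y.1.2, y.2.2) := hxy
        rw [Prod.ext_iff] at h5 h6
        exact Prod.ext (Prod.ext h5.1 h6.1) (Prod.ext h5.2 h6.2)
    exact_mod_cast h3
  rw [h1]
  push_cast
  refine (sum_le_sum h2).trans ?_
  rw [← mul_sum]
  have h3 : ∑ p ∈ Ioc K (2 * K) ×ˢ Ioc K (2 * K), ((Nat.gcd p.1 p.2 : ℕ) : ℝ) ≤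
      ∑ p ∈ Ioc 0 (2 * K) ×ˢ Ioc 0 (2 * K), ((Nat.gcd p.1 p.2 : ℕ) : ℝ) := by
    refine sum_le_sum_of_subset_of_nonneg ?_ (fun p _ _ => Nat.cast_nonneg _)
    refine product_subset_product ?_ ?_ <;> exact Ioc_subset_Ioc_left (Nat.zero_le _)
  have h4 := h3.trans (L6_gcdsum (2 * K))
  push_cast at h4
  linarith

/-- Sums over products of pairs. -/
theorem L6_div (K : ℕ) (D B : ℝ) (hD : 0 < D) (hB : 0 ≤ B) (Φ : ℕ → ℝ) (hΦ : ∀ n, 0 ≤ Φ n) (hΦB : ∀ n, Φ n ≤ B) :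
    ∑ p ∈ Ioc K (2 * K) ×ˢ Ioc K (2 * K), Φ (p.1 * p.2) ≤
      D * (∑ n ∈ Ioc (K ^ 2) (2 * K ^ 2), Φ n + ∑ n ∈ Ioc (2 * K ^ 2) (2 * (2 * K ^ 2)), Φ n) +
        B * (8 * (K : ℝ) ^ 2 * (1 + Real.log (2 * K))) / D := by
  classical
  obtain ⟨P, hP⟩ : ∃ P, P = Ioc K (2 * K) ×ˢ Ioc K (2 * K) := ⟨_, rfl⟩
  obtain ⟨r, hr⟩ : ∃ r : ℕ → ℕ, r = fun n => (P.filter (fun p : ℕ × ℕ => p.1 * p.2 = n)).card := ⟨_, rfl⟩
  have hmaps : ∀ p ∈ P, p.1 * p.2 ∈ Ioc (K ^ 2) (4 * K ^ 2) := by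
    intro p hp
    rw [hP, mem_product, mem_Ioc, mem_Ioc] at hp
    obtain ⟨⟨h1, h2⟩, h3, h4⟩ := hp
    rw [mem_Ioc]
    refine ⟨?_, ?_⟩
    · calc K ^ 2 = K * K := by ring
        _ < p.1 * p.2 := Nat.mul_lt_mul_of_lt_of_lt h1 h3
    · calc p.1 * p.2 ≤ (2 * K) * (2 * K) := Nat.mul_le_mul h2 h4
        _ = 4 * K ^ 2 := by ring
  have hfib : ∀ n ∈ Ioc (K ^ 2) (4 * K ^ 2), (∑ p ∈ P with p.1 * p.2 = n, Φ (p.1 * p.2)) ≤
      D * Φ n + B / D * (r n : ℝ) ^ 2 := by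
    intro n _
    have h1 : (∑ p ∈ P with p.1 * p.2 = n, Φ (p.1 * p.2)) = (r n : ℝ) * Φ n := by
      rw [hr, ← nsmul_eq_mul, ← sum_const]
      refine sum_congr rfl ?_
      intro p hp
      rw [mem_filter] at hp
      rw [hp.2]
    rw [h1]
    have hr0 : (0 : ℝ) ≤ r n := Nat.cast_nonneg _
    rcases le_total (r n : ℝ) D with h | h
    · have h2 : (r n : ℝ) * Φ n ≤ D * Φ n := mul_le_mul_of_nonneg_right h (hΦ n)
      have h3 : 0 ≤ B / D * (r n : ℝ) ^ 2 := by positivity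
      linarith
    · have h2 : (r n : ℝ) * Φ n ≤ r n * B := mul_le_mul_of_nonneg_left (hΦB n) hr0
      have h3 : (r n : ℝ) * B ≤ B / D * (r n : ℝ) ^ 2 := by
        have h4 : 1 ≤ (r n : ℝ) / D := by rwa [one_le_div hD]
        calc (r n : ℝ) * B = (r n * B) * 1 := (mul_one _).symm
          _ ≤ (r n * B) * (r n / D) := mul_le_mul_of_nonneg_left h4 (by positivity)
          _ = B / D * (r n : ℝ) ^ 2 := by ring
      have h5 : 0 ≤ D * Φ n := mul_nonneg hD.le (hΦ n)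
      linarith
  have hunion : Ioc (K ^ 2) (4 * K ^ 2) = Ioc (K ^ 2) (2 * K ^ 2) ∪ Ioc (2 * K ^ 2) (2 * (2 * K ^ 2)) := by
    ext n
    rw [mem_union, mem_Ioc, mem_Ioc, mem_Ioc]
    generalize K ^ 2 = k
    omega
  have hdisj : Disjoint (Ioc (K ^ 2) (2 * K ^ 2)) (Ioc (2 * K ^ 2) (2 * (2 * K ^ 2))) := by
    rw [disjoint_left]
    intro n hn hn'
    rw [mem_Ioc] at hn hn'
    omega
  have hen : ∑ n ∈ Ioc (K ^ 2) (4 * K ^ 2), (r n : ℝ) ^ 2 ≤ 8 * (K : ℝ) ^ 2 * (1 + Real.log (2 * K)) := by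
    refine le_trans ?_ (L6_energy K)
    rw [← hP]
    have h1 : ∀ x ∈ (P ×ˢ P).filter (fun x : (ℕ × ℕ) × ℕ × ℕ => x.1.1 * x.1.2 = x.2.1 * x.2.2),
        x.1.1 * x.1.2 ∈ Ioc (K ^ 2) (4 * K ^ 2) := by
      intro x hx
      rw [mem_filter, mem_product] at hx
      exact hmaps x.1 hx.1.1
    rw [card_eq_sum_card_fiberwise h1]
    push_cast
    refine sum_le_sum fun n _ => ?_
    have h2 : ((P ×ˢ P).filter (fun x : (ℕ × ℕ) × ℕ × ℕ => x.1.1 * x.1.2 = x.2.1 * x.2.2)).filter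
        (fun x => x.1.1 * x.1.2 = n) = (P.filter fun p : ℕ × ℕ => p.1 * p.2 = n) ×ˢ (P.filter fun p : ℕ × ℕ => p.1 * p.2 = n) := by
      ext x
      simp only [mem_filter, mem_product]
      constructor
      · rintro ⟨⟨⟨h1, h2⟩, h3⟩, h4⟩
        exact ⟨⟨h1, h4⟩, h2, by rw [← h3, h4]⟩
      · rintro ⟨⟨h1, h4⟩, h2, h5⟩
        exact ⟨⟨⟨h1, h2⟩, by rw [h4, h5]⟩, h4⟩
    rw [h2, card_product, hr]
    push_cast
    exact le_of_eq (sq _)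
  rw [← hP]
  calc ∑ p ∈ P, Φ (p.1 * p.2)
      = ∑ n ∈ Ioc (K ^ 2) (4 * K ^ 2), ∑ p ∈ P with p.1 * p.2 = n, Φ (p.1 * p.2) :=
        (sum_fiberwise_of_maps_to hmaps _).symm
    _ ≤ ∑ n ∈ Ioc (K ^ 2) (4 * K ^ 2), (D * Φ n + B / D * (r n : ℝ) ^ 2) := sum_le_sum hfib
    _ = D * ∑ n ∈ Ioc (K ^ 2) (4 * K ^ 2), Φ n + B / D * ∑ n ∈ Ioc (K ^ 2) (4 * K ^ 2), (r n : ℝ) ^ 2 := by
        rw [sum_add_distrib, mul_sum, mul_sum]
    _ ≤ D * ∑ n ∈ Ioc (K ^ 2) (4 * K ^ 2), Φ n + B / D * (8 * (K : ℝ) ^ 2 * (1 + Real.log (2 * K))) := by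
        have := mul_le_mul_of_nonneg_left hen (div_nonneg hB hD.le)
        linarith
    _ = _ := by
        rw [hunion, sum_union hdisj]
        ring

end Pool.Agent.Lib.H88U
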