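import Pool.Agent.Lib.H88U.L3
import Pool.Agent.Lib.HUK.LL7

/-!
# Uniform module A, chunk L7: `LL7_pair` with an explicit constant
-/

open Finset

namespace Pool.Agent.Lib.H88U

open Pool.Agent.HUK

private theorem l7_num (s : ℕ) (C : ℝ) (hC : C ≤ 2 ^ (6 * 2 ^ s)) :
    16 * 2 ^ (2 ^ s) * C ≤ (2 : ℝ) ^ (11 * 2 ^ s) := by
  have hn : 1 ≤ 2 ^ s := Nat.one_le_two_pow
  generalize 2 ^ s = n at hC hn ⊢
  calc 16 * (2 : ℝ) ^ n * C ≤ 16 * 2 ^ n * 2 ^ (6 * n) := mul_le_mul_of_nonneg_left hC (by positivity)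
    _ = 2 ^ (7 * n + 4) := by
        rw [show 7 * n + 4 = 4 + n + 6 * n by ring, pow_add, pow_add]
        norm_num
    _ ≤ 2 ^ (11 * n) := pow_le_pow_right₀ (by norm_num) (by omega)

/-- `LL7_pair` with the constant `C ≤ 2^(11 2^s)`. -/
theorem L7_pair (s : ℕ) : ∃ C : ℝ, 1 ≤ C ∧ C ≤ 2 ^ (11 * 2 ^ s) ∧ ∀ X M K H R b b' q : ℕ, 1 ≤ X → 1 ≤ M → 1 ≤ K → 1 ≤ H → 1 ≤ R →
    b ∈ Ioc K (2 * K) → b' ∈ Ioc K (2 * K) → q * Nat.gcd b b' * R ≤ X → 2 * q * K * M ≤ X → b * b' * q * H ≤ X →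
    4 * K * H ≤ M → ∀ f : ℤ → ℂ, Bdd X f →
    (max 0 (SPd X s M (b * q) (b' * q) f)) ^ (2 ^ s) ≤ C * (X : ℝ) ^ (2 ^ s - 1) *
      ((MQ X ((R, ((q * Nat.gcd b b' : ℕ) : ℤ)) :: List.replicate s (H, ((b * b' * q : ℕ) : ℤ))) f).re +
        X * ((K * H + K + Nat.gcd b b' * R / K) / M)) := by
  rcases Nat.eq_zero_or_pos s with rfl | hs
  · refine ⟨16, by norm_num, by norm_num, ?_⟩
    intro X M K H R b b' q hX hM hK hH hR hb hb' hq hKM hbH hKH f hf
    have h1 := LL7_zero X M K R b b' q hM hK hR hb hb' hq hKM f hf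
    obtain ⟨m, hm0, hm⟩ := MQ_nonneg X [(R, ((q * Nat.gcd b b' : ℕ) : ℤ))] (List.cons_ne_nil _ _) (by
      intro p hp
      rw [List.mem_singleton] at hp
      subst hp
      refine ⟨hR, by positivity, ?_⟩
      show ((q * Nat.gcd b b' : ℕ) : ℤ) * (R : ℤ) ≤ X
      exact_mod_cast hq) f hf.sup
    rw [hm, Complex.ofReal_re] at h1
    rw [pow_zero, pow_one, List.replicate_zero, hm, Complex.ofReal_re, Nat.sub_self, pow_zero, mul_one]
    have hX0 : (0 : ℝ) < X := by exact_mod_cast hX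
    have hM0 : (0 : ℝ) < M := by exact_mod_cast hM
    have hK0 : (0 : ℝ) < K := by exact_mod_cast hK
    have hH0 : (0 : ℝ) < H := by exact_mod_cast hH
    have hg0 : (0 : ℝ) ≤ (Nat.gcd b b' : ℝ) * R / K := by positivity
    have h2 : (4 * (K : ℝ) + Nat.gcd b b' * R / K) / M ≤ 4 * ((K * H + K + Nat.gcd b b' * R / K) / M) := by
      rw [← mul_div_assoc]
      refine div_le_div_of_nonneg_right ?_ hM0.le
      have : 0 ≤ (K : ℝ) * H := by positivity
      linarith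
    have h3 : 0 ≤ ((K : ℝ) * H + K + Nat.gcd b b' * R / K) / M := by positivity
    refine max_le (by positivity) (h1.trans ?_)
    have h4 := mul_le_mul_of_nonneg_left h2 (by positivity : (0 : ℝ) ≤ 4 * X)
    nlinarith
  obtain ⟨C, hC1, hCb, hC⟩ := L3_main s hs
  have hn1 : 1 ≤ 2 ^ s := Nat.one_le_two_pow
  refine ⟨16 * 2 ^ (2 ^ s) * C, ?_, l7_num s C hCb, ?_⟩
  · have h1 : (1 : ℝ) ≤ 2 ^ (2 ^ s) := one_le_pow₀ (by norm_num)
    nlinarith
  intro X M K H R b b' q hX hM hK hH hR hb hb' hq hKM hbH hKH f hf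
  have hX0 : (0 : ℝ) < X := by exact_mod_cast hX
  have hM0 : (0 : ℝ) < M := by exact_mod_cast hM
  have hK0 : (0 : ℝ) < K := by exact_mod_cast hK
  have hH0 : (0 : ℝ) < H := by exact_mod_cast hH
  have hb1 := mem_Ioc.1 hb
  have hb2 := mem_Ioc.1 hb'
  set L : List (ℕ × ℤ) := List.replicate s (H, ((b * b' * q : ℕ) : ℤ)) with hL
  have hLp : ∀ p ∈ L, p = (H, ((b * b' * q : ℕ) : ℤ)) := fun p hp => (List.mem_replicate.1 hp).2
  obtain ⟨m, hm0, hm⟩ := MQ_nonneg X ((R, ((q * Nat.gcd b b' : ℕ) : ℤ)) :: L) (List.cons_ne_nil _ _) (by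
    intro p hp
    rcases List.mem_cons.1 hp with h | h
    · subst h
      refine ⟨hR, by positivity, ?_⟩
      show ((q * Nat.gcd b b' : ℕ) : ℤ) * (R : ℤ) ≤ X
      exact_mod_cast hq
    · rw [hLp p h]
      refine ⟨hH, by positivity, ?_⟩
      show ((b * b' * q : ℕ) : ℤ) * (H : ℤ) ≤ X
      exact_mod_cast hbH) f hf.sup
  rw [hm, Complex.ofReal_re]
  -- the last coordinate
  have hlast := ll7_last X M K R b b' q hM hK hR hb hb' hq L (fun p hp => by rw [hLp p hp]; exact hH) f hf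
  rw [← MQ_perm X (List.perm_append_singleton (R, ((q * Nat.gcd b b' : ℕ) : ℤ)) L).symm f, hm, Complex.ofReal_re,
    ll7_re _ (fun x : ℤ × ℤ => fw M x.1 * fw M x.2)] at hlast
  set S : Finset (ℤ × ℤ) := Ioo (-(M : ℤ)) M ×ˢ Ioo (-(M : ℤ)) M with hS
  set T : ℤ × ℤ → ℂ := fun x => TT (2 * X) M (b * q) (b' * q) (Uf (s := s) f (b * q * x.1))
    (cU (Uf (s := s) f (b' * q * x.2))) with hT
  have hw0 : ∀ x : ℤ × ℤ, 0 ≤ fw M x.1 * fw M x.2 := fun x => mul_nonneg (mq2_fw_nonneg M _) (mq2_fw_nonneg M _)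
  have hws : ∑ x ∈ S, fw M x.1 * fw M x.2 = (M : ℝ) ^ 2 := by
    rw [hS, Finset.sum_product, ← Finset.sum_mul_sum, mq2_fw_sum M hM]
    ring
  have hSP : SPd X s M (b * q) (b' * q) f ≤ ∑ x ∈ S, fw M x.1 * fw M x.2 / (M : ℝ) ^ 2 * ‖T x‖ := by
    unfold SPd
    rw [← Finset.sum_product' (Ioo (-(M : ℤ)) M) (Ioo (-(M : ℤ)) M) (fun t t' => ((fw M t * fw M t' : ℝ) : ℂ) *
      TT (2 * X) M (b * q) (b' * q) (Uf (s := s) f (b * q * t)) (cU (Uf (s := s) f (b' * q * t')))),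
      ll7_re _ (fun x : ℤ × ℤ => fw M x.1 * fw M x.2), Finset.sum_div]
    refine Finset.sum_le_sum fun x _ => ?_
    rw [div_mul_eq_mul_div]
    refine div_le_div_of_nonneg_right ?_ (by positivity)
    exact mul_le_mul_of_nonneg_left (Complex.re_le_norm _) (hw0 x)
  have hSP0 : 0 ≤ ∑ x ∈ S, fw M x.1 * fw M x.2 / (M : ℝ) ^ 2 * ‖T x‖ := by
    refine Finset.sum_nonneg fun x _ => ?_
    have := hw0 x
    positivity
  have hJ := Real.pow_arith_mean_le_arith_mean_pow S (fun x => fw M x.1 * fw M x.2 / (M : ℝ) ^ 2) (fun x => ‖T x‖)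
    (fun x _ => by
      have := hw0 x
      positivity) (by
      rw [← Finset.sum_div, hws]
      exact div_self (by positivity)) (fun x _ => norm_nonneg _) (2 ^ s)
  -- the bound for one pair
  have hbb : (b + b') * H ≤ M := by
    refine le_trans (Nat.mul_le_mul_right H ?_) hKH
    omega
  have hpt : ∀ x ∈ S, ‖T x‖ ^ (2 ^ s) ≤ C * (2 * (X : ℝ)) ^ (2 ^ s - 1) *
      ((MQ X L (DD ((q : ℤ) * (b * x.1 - b' * x.2)) f)).re + 2 * X * (((b : ℝ) + b') * H / M)) := by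
    intro x hx
    rw [hS, mem_product, mem_Ioo, mem_Ioo] at hx
    have hz' : |(b' : ℤ) * q * x.2| ≤ X := by
      rw [abs_mul, abs_of_nonneg (by positivity : (0 : ℤ) ≤ (b' : ℤ) * q)]
      have h1 : |x.2| ≤ M := abs_le.2 ⟨hx.2.1.le, hx.2.2.le⟩
      calc (b' : ℤ) * q * |x.2| ≤ b' * q * M := mul_le_mul_of_nonneg_left h1 (by positivity)
        _ ≤ ((2 * q * K * M : ℕ) : ℤ) := by
          have h2 : b' * q * M ≤ 2 * q * K * M := by
            refine Nat.mul_le_mul_right M ?_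
            calc b' * q ≤ (2 * K) * q := Nat.mul_le_mul_right q hb2.2
              _ = 2 * q * K := by ring
          exact_mod_cast h2
        _ ≤ X := by exact_mod_cast hKM
    have hz'' := abs_le.1 hz'
    have hfun : (fun y => Uf (s := s) f (b * q * x.1) (zv s) y * cU (Uf (s := s) f (b' * q * x.2)) (zv s) y) =
        fun y => DD ((q : ℤ) * (b * x.1 - b' * x.2)) f (y + b' * q * x.2) := by
      funext y
      rw [LL7_Uf]
      congr 1
      ring
    have hsup : ∀ y, y ∉ Ico (-((2 * X : ℕ) : ℤ)) ((2 * X : ℕ) : ℤ) →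
        DD ((q : ℤ) * (b * x.1 - b' * x.2)) f (y + b' * q * x.2) = 0 := by
      intro y hy
      refine ll7_DD0 _ _ _ (hf.sup _ fun h => hy ?_)
      rw [mem_Ico] at h ⊢
      push_cast
      constructor <;> linarith [h.1, h.2]
    have h1 := hC (2 * X) M H b b' q (by omega) hM hH (by omega) hbb (Uf (s := s) f (b * q * x.1))
      (cU (Uf (s := s) f (b' * q * x.2))) (fun ω y => ll7_Uf_le f hf.le _ ω y) (fun ω y => by
        unfold cU
        rw [RCLike.norm_conj]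
        exact ll7_Uf_le f hf.le _ ω y) (fun y hy => (congrFun hfun y).trans (hsup y hy))
    rw [hfun, LL7_shift X (2 * X) s H _ (b' * q * x.2) (DD ((q : ℤ) * (b * x.1 - b' * x.2)) f)
      (fun y hy => ll7_DD0 _ _ _ (hf.sup y hy)) hsup, ← MQ_NU X s H hH] at h1
    push_cast at h1
    have h3 : ((b : ℤ) * b' * q) = ((b * b' * q : ℕ) : ℤ) := by push_cast; rfl
    rw [h3] at h1
    exact h1
  refine (pow_le_pow_left₀ (le_max_left _ _) (max_le hSP0 hSP) _).trans (hJ.trans ?_)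
  have hfin : ∑ x ∈ S, fw M x.1 * fw M x.2 / (M : ℝ) ^ 2 * ‖T x‖ ^ (2 ^ s) ≤ C * (2 * (X : ℝ)) ^ (2 ^ s - 1) *
      ((m + 4 * X * ((4 * K + Nat.gcd b b' * R / K) / M)) + 2 * X * (((b : ℝ) + b') * H / M)) := by
    calc ∑ x ∈ S, fw M x.1 * fw M x.2 / (M : ℝ) ^ 2 * ‖T x‖ ^ (2 ^ s) ≤
        ∑ x ∈ S, fw M x.1 * fw M x.2 / (M : ℝ) ^ 2 * (C * (2 * (X : ℝ)) ^ (2 ^ s - 1) *
          ((MQ X L (DD ((q : ℤ) * (b * x.1 - b' * x.2)) f)).re + 2 * X * (((b : ℝ) + b') * H / M))) := by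
          refine Finset.sum_le_sum fun x hx => mul_le_mul_of_nonneg_left (hpt x hx) ?_
          have := hw0 x
          positivity
      _ = C * (2 * (X : ℝ)) ^ (2 ^ s - 1) * ((∑ x ∈ S, fw M x.1 * fw M x.2 *
          (MQ X L (DD ((q : ℤ) * (b * x.1 - b' * x.2)) f)).re) / (M : ℝ) ^ 2 +
          (∑ x ∈ S, fw M x.1 * fw M x.2) / (M : ℝ) ^ 2 * (2 * X * (((b : ℝ) + b') * H / M))) := by
          rw [Finset.sum_div, Finset.sum_div, Finset.sum_mul, ← Finset.sum_add_distrib, Finset.mul_sum]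
          refine sum_congr rfl fun x _ => ?_
          ring
      _ ≤ C * (2 * (X : ℝ)) ^ (2 ^ s - 1) *
          ((m + 4 * X * ((4 * K + Nat.gcd b b' * R / K) / M)) + 2 * X * (((b : ℝ) + b') * H / M)) := by
          refine mul_le_mul_of_nonneg_left ?_ (by positivity)
          rw [hws, div_self (by positivity), one_mul]
          linarith
  refine hfin.trans ?_
  refine ll7_num (2 ^ s) hn1 X C m _ _ _ hX0.le (by linarith) hm0 (by positivity) ?_
  have hbr : (b : ℝ) + b' ≤ 4 * K := by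
    have : b + b' ≤ 4 * K := by omega
    exact_mod_cast this
  have h5 : ((b : ℝ) + b') * H / M ≤ 4 * (K * H / M) := by
    rw [← mul_div_assoc]
    refine div_le_div_of_nonneg_right ?_ hM0.le
    nlinarith
  have hg0 : (0 : ℝ) ≤ (Nat.gcd b b' : ℝ) * R / K / M := by positivity
  have hk0 : (0 : ℝ) ≤ (K : ℝ) * H / M := by positivity
  have hk1 : (0 : ℝ) ≤ (K : ℝ) / M := by positivity
  have e1 : (4 * (K : ℝ) + Nat.gcd b b' * R / K) / M = 4 * (K / M) + Nat.gcd b b' * R / K / M := by ring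
  have e2 : ((K : ℝ) * H + K + Nat.gcd b b' * R / K) / M = K * H / M + K / M + Nat.gcd b b' * R / K / M := by ring
  rw [e1, e2]
  have h6 := mul_le_mul_of_nonneg_left h5 hX0.le
  have h7 := mul_nonneg hX0.le hg0
  have h8 := mul_nonneg hX0.le hk0
  have h9 := mul_nonneg hX0.le hk1
  linarith

end Pool.Agent.Lib.H88U
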