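import Pool.Agent.Lib.H88U.L7
import Pool.Agent.Lib.HUK.LL8

/-!
# Uniform module A, chunk L8: `LL8_pairs` with an explicit constant
-/

open Finset

namespace Pool.Agent.Lib.H88U

open Pool.Agent.HUK

/-- `LL8_pairs` with the constant `C = 15 2^s + 12`. -/
theorem L8_pairs (s : ℕ) : ∃ C : ℕ, 1 ≤ C ∧ C = 15 * 2 ^ s + 12 ∧ ∀ δ : ℝ, 0 < δ → δ ≤ 1 / 2 → ∀ X K M q : ℕ, 1 ≤ K → 1 ≤ M → 1 ≤ q →
    (1 / δ) ^ (C + 2) * (K : ℝ) ^ 2 ≤ X → δ * X ≤ q * K * M → 4 * q * K * M ≤ X → (q : ℝ) ≤ 1 / δ → ∀ f : ℤ → ℂ, Bdd X f →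
    δ * (K * X) ≤ ∑ b ∈ Ioc K (2 * K), NU X (s + 1) M (b * q) f →
    1 ≤ ⌊δ ^ C * M / K⌋₊ ∧ 1 ≤ ⌊δ ^ (C + 2) * X⌋₊ ∧ ∃ γ : ℕ, 1 ≤ γ ∧ (γ : ℝ) ≤ (1 / δ) ^ C ∧
      4 * (q * γ) * ⌊δ ^ (C + 2) * X⌋₊ ≤ X ∧
      δ ^ C * ((K : ℝ) ^ 2 * X) ≤ ∑ p ∈ Ioc K (2 * K) ×ˢ Ioc K (2 * K),
        (MQ X ((⌊δ ^ (C + 2) * X⌋₊, ((q * γ : ℕ) : ℤ)) ::
          List.replicate s (⌊δ ^ C * M / K⌋₊, ((p.1 * p.2 * q : ℕ) : ℤ))) f).re := by
  obtain ⟨C7, hC71, hC7b, hC7⟩ := L7_pair s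
  obtain ⟨c, hcd, hc⟩ : ∃ c : ℕ, c = 11 * 2 ^ s ∧ C7 ≤ 2 ^ c := ⟨_, rfl, hC7b⟩
  have hn1 : 1 ≤ 2 ^ s := Nat.one_le_two_pow
  refine ⟨4 * 2 ^ s + c + 12, by omega, by omega, ?_⟩
  intro δ hδ hδ2 X K M q hK hM hq hX hlo hup hqδ f hf hsum
  have hM0 : (0 : ℝ) < M := by exact_mod_cast hM
  have hK0 : (0 : ℝ) < K := by exact_mod_cast hK
  have hK1 : (1 : ℝ) ≤ K := by exact_mod_cast hK
  have hq0 : (0 : ℝ) < q := by exact_mod_cast hq
  have hδ1 : δ ≤ 1 := by linarith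
  obtain ⟨D, hD⟩ : ∃ D : ℕ, D = 4 * 2 ^ s + c := ⟨_, rfl⟩
  rw [← hD] at hX ⊢
  have h2qKM : 2 * q * K * M ≤ X := by
    refine le_trans ?_ hup
    refine Nat.mul_le_mul_right M (Nat.mul_le_mul_right K (Nat.mul_le_mul_right q (by norm_num)))
  -- basic inequalities
  have hk2 : (K : ℝ) ^ 2 ≤ δ ^ (D + 12 + 2) * X := by
    have h1 := mul_le_mul_of_nonneg_left hX (by positivity : 0 ≤ δ ^ (D + 12 + 2))
    have h2 : δ ^ (D + 12 + 2) * ((1 / δ) ^ (D + 12 + 2) * (K : ℝ) ^ 2) = (K : ℝ) ^ 2 := by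
      rw [← mul_assoc, ← mul_pow, mul_one_div_cancel hδ.ne', one_pow, one_mul]
    rw [h2] at h1
    exact h1
  have hX0 : (0 : ℝ) < X := by
    by_contra h
    push Not at h
    have h1 : δ ^ (D + 12 + 2) * (X : ℝ) ≤ 0 := mul_nonpos_of_nonneg_of_nonpos (by positivity) h
    nlinarith
  have hX1 : 1 ≤ X := by
    have : 0 < X := by exact_mod_cast hX0
    omega
  have hqδ' : (q : ℝ) * δ ≤ 1 := by
    rw [le_div_iff₀ hδ] at hqδ
    exact hqδ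
  have hup' : 4 * (q : ℝ) * K * M ≤ X := by exact_mod_cast hup
  have hkm : δ ^ 2 * X ≤ K * M := by
    calc δ ^ 2 * X = δ * (δ * X) := by ring
      _ ≤ δ * (q * K * M) := mul_le_mul_of_nonneg_left hlo hδ.le
      _ = (q * δ) * (K * M) := by ring
      _ ≤ 1 * (K * M) := mul_le_mul_of_nonneg_right hqδ' (by positivity)
      _ = K * M := one_mul _
  have hkM : (K : ℝ) ≤ δ ^ (D + 12) * M := by
    have h1 : (K : ℝ) * K ≤ K * (δ ^ (D + 12) * M) := by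
      calc (K : ℝ) * K = K ^ 2 := by ring
        _ ≤ δ ^ (D + 12 + 2) * X := hk2
        _ = δ ^ (D + 12) * (δ ^ 2 * X) := by ring
        _ ≤ δ ^ (D + 12) * (K * M) := mul_le_mul_of_nonneg_left hkm (by positivity)
        _ = K * (δ ^ (D + 12) * M) := by ring
    exact le_of_mul_le_mul_left h1 hK0
  have hpow : ∀ a b : ℕ, a ≤ b → δ ^ b ≤ δ ^ a := fun a b hab => pow_le_pow_of_le_one hδ.le hδ1 hab
  obtain ⟨H, hH⟩ : ∃ H : ℕ, H = ⌊δ ^ (D + 12) * M / K⌋₊ := ⟨_, rfl⟩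
  obtain ⟨R, hR⟩ : ∃ R : ℕ, R = ⌊δ ^ (D + 12 + 2) * X⌋₊ := ⟨_, rfl⟩
  have hH1 : 1 ≤ H := by
    rw [hH]
    refine Nat.le_floor ?_
    rw [le_div_iff₀ hK0]
    push_cast
    linarith
  have hR1 : 1 ≤ R := by
    rw [hR]
    refine Nat.le_floor ?_
    push_cast
    refine le_trans ?_ hk2
    nlinarith
  have hHle : (H : ℝ) * K ≤ δ ^ (D + 12) * M := by
    have h1 : (H : ℝ) ≤ δ ^ (D + 12) * M / K := by
      rw [hH]
      exact Nat.floor_le (by positivity)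
    rw [le_div_iff₀ hK0] at h1
    exact h1
  have hRle : (R : ℝ) ≤ δ ^ (D + 12 + 2) * X := by
    rw [hR]
    exact Nat.floor_le (by positivity)
  rw [← hH, ← hR]
  refine ⟨hH1, hR1, ?_⟩
  -- the bound for the gcd
  obtain ⟨G, hG⟩ : ∃ G : ℕ, G = ⌊(1 / δ) ^ 9⌋₊ := ⟨_, rfl⟩
  have hGle : (G : ℝ) ≤ (1 / δ) ^ 9 := by
    rw [hG]
    exact Nat.floor_le (by positivity)
  have hG9 : (G : ℝ) * δ ^ 9 ≤ 1 := by
    calc (G : ℝ) * δ ^ 9 ≤ (1 / δ) ^ 9 * δ ^ 9 := mul_le_mul_of_nonneg_right hGle (by positivity)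
      _ = 1 := by rw [← mul_pow, one_div_mul_cancel hδ.ne', one_pow]
  have hG64 : 64 ≤ (G : ℝ) * δ ^ 2 := by
    have h1 : (1 / δ) ^ 9 < G + 1 := by
      rw [hG]
      exact Nat.lt_floor_add_one _
    have h2 : (2 : ℝ) ≤ 1 / δ := by
      rw [le_div_iff₀ hδ]
      linarith
    have h3 : (2 : ℝ) ^ 7 ≤ (1 / δ) ^ 7 := pow_le_pow_left₀ (by norm_num) h2 7
    have h4 : (1 / δ) ^ 9 * δ ^ 2 = (1 / δ) ^ 7 := by
      have h5 : (1 / δ) ^ 9 * δ ^ 2 = (1 / δ) ^ 7 * ((1 / δ) * δ) ^ 2 := by ring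
      rw [h5, one_div_mul_cancel hδ.ne', one_pow, mul_one]
    have h5 : (1 / δ) ^ 9 * δ ^ 2 ≤ (G + 1) * δ ^ 2 := mul_le_mul_of_nonneg_right h1.le (by positivity)
    rw [h4] at h5
    have h6 : δ ^ 2 ≤ 1 := pow_le_one₀ hδ.le hδ1
    have h7 : (2 : ℝ) ^ 7 = 128 := by norm_num
    rw [h7] at h3
    nlinarith
  have hG0 : (0 : ℝ) < G := by
    by_contra h
    push Not at h
    have : (G : ℝ) * δ ^ 2 ≤ 0 := mul_nonpos_of_nonpos_of_nonneg h (by positivity)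
    linarith
  have hG1 : 1 ≤ G := by
    have : 0 < G := by exact_mod_cast hG0
    omega
  have hγR : ∀ γ : ℕ, γ ≤ G → 4 * (q * γ) * R ≤ X := by
    intro γ hγ
    have h1 : (γ : ℝ) * δ ^ 9 ≤ 1 := by
      refine le_trans (mul_le_mul_of_nonneg_right ?_ (by positivity)) hG9
      exact_mod_cast hγ
    have h2 : (4 : ℝ) * (q * γ) * R ≤ X := by
      calc (4 : ℝ) * (q * γ) * R ≤ 4 * (q * γ) * (δ ^ (D + 12 + 2) * X) := mul_le_mul_of_nonneg_left hRle (by positivity)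
        _ = (q * δ) * (γ * δ ^ 9) * (4 * δ ^ (D + 4)) * X := by ring
        _ ≤ 1 * 1 * (4 * δ ^ 2) * X := by
            refine mul_le_mul_of_nonneg_right ?_ hX0.le
            refine mul_le_mul ?_ ?_ (by positivity) (by norm_num)
            · exact mul_le_mul hqδ' h1 (by positivity) (by norm_num)
            · exact mul_le_mul_of_nonneg_left (hpow 2 (D + 4) (by omega)) (by norm_num)
        _ ≤ X := by
            have h3 : δ ^ 2 ≤ 1 / 4 := by nlinarith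
            nlinarith
    exact_mod_cast h2
  have hbH : ∀ b b' : ℕ, b ≤ 2 * K → b' ≤ 2 * K → b * b' * q * H ≤ X := by
    intro b b' hb hb'
    have h1 : b * b' * q * H ≤ (2 * K) * (2 * K) * q * H :=
      Nat.mul_le_mul_right H (Nat.mul_le_mul_right q (Nat.mul_le_mul hb hb'))
    refine h1.trans ?_
    have h2 : (2 * (K : ℝ)) * (2 * K) * q * H ≤ X := by
      calc (2 * (K : ℝ)) * (2 * K) * q * H = 4 * q * K * (H * K) := by ring
        _ ≤ 4 * q * K * (δ ^ (D + 12) * M) := mul_le_mul_of_nonneg_left hHle (by positivity)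
        _ = δ ^ (D + 12) * (4 * q * K * M) := by ring
        _ ≤ 1 * X := mul_le_mul (pow_le_one₀ hδ.le hδ1) hup' (by positivity) (by norm_num)
        _ = X := one_mul _
    exact_mod_cast h2
  have hKH : 4 * K * H ≤ M := by
    have h1 : 4 * (K : ℝ) * H ≤ M := by
      calc 4 * (K : ℝ) * H = 4 * (H * K) := by ring
        _ ≤ 4 * (δ ^ (D + 12) * M) := by linarith
        _ ≤ 4 * (δ ^ 2 * M) := by
            have := mul_le_mul_of_nonneg_right (hpow 2 (D + 12) (by omega)) hM0.le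
            linarith
        _ ≤ M := by
            have h3 : δ ^ 2 ≤ 1 / 4 := by nlinarith
            nlinarith
    exact_mod_cast h1
  -- the sums
  obtain ⟨P, hP⟩ : ∃ P : Finset (ℕ × ℕ), P = Ioc K (2 * K) ×ˢ Ioc K (2 * K) := ⟨_, rfl⟩
  have hPcard : P.card = K * K := by
    rw [hP, card_product, Nat.card_Ioc]
    congr 1 <;> omega
  have hPmem : ∀ p ∈ P, p.1 ∈ Ioc K (2 * K) ∧ p.2 ∈ Ioc K (2 * K) := by
    intro p hp
    rw [hP, mem_product] at hp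
    exact hp
  rw [← hP]
  obtain ⟨F, hF⟩ : ∃ F : ℕ × ℕ → ℕ → ℝ, F = fun p γ => (MQ X ((R, ((q * γ : ℕ) : ℤ)) ::
    List.replicate s (H, ((p.1 * p.2 * q : ℕ) : ℤ))) f).re := ⟨_, rfl⟩
  have hF0 : ∀ p ∈ P, ∀ γ ∈ Icc 1 G, 0 ≤ F p γ := by
    intro p hp γ hγ
    rw [mem_Icc] at hγ
    have hp' := hPmem p hp
    rw [mem_Ioc, mem_Ioc] at hp'
    rw [hF]
    exact ll8_F0 X s R H q γ _ hR1 hH1 (ll8_four _ _ _ (hγR γ hγ.2)) (hbH p.1 p.2 hp'.1.2 hp'.2.2) f hf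
  have hgcd : ∀ p ∈ P, 1 ≤ Nat.gcd p.1 p.2 := by
    intro p hp
    have hp' := hPmem p hp
    rw [mem_Ioc, mem_Ioc] at hp'
    exact Nat.gcd_pos_of_pos_left _ (by omega)
  -- Cauchy-Schwarz
  have hcs := LL4_cs X s M K q f hf
  rw [← hP] at hcs
  have hS1 : δ ^ 2 * ((K : ℝ) ^ 2 * X) / 2 ≤ ∑ p ∈ P, SPd X s M (p.1 * q) (p.2 * q) f := by
    have h1 : (δ * (K * X)) ^ 2 ≤ 2 * X * ∑ p ∈ P, SPd X s M (p.1 * q) (p.2 * q) f :=
      (pow_le_pow_left₀ (by positivity) hsum 2).trans hcs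
    have h2 : (δ * ((K : ℝ) * X)) ^ 2 = 2 * X * (δ ^ 2 * ((K : ℝ) ^ 2 * X) / 2) := by ring
    rw [h2] at h1
    exact le_of_mul_le_mul_left h1 (by positivity)
  obtain ⟨bad, hbad⟩ : ∃ bad : Finset (ℕ × ℕ), bad = P.filter (fun p : ℕ × ℕ => G < Nat.gcd p.1 p.2) := ⟨_, rfl⟩
  obtain ⟨good, hgood⟩ : ∃ good : Finset (ℕ × ℕ), good = P.filter (fun p : ℕ × ℕ => ¬ G < Nat.gcd p.1 p.2) := ⟨_, rfl⟩
  have hS2 : ∑ p ∈ bad, SPd X s M (p.1 * q) (p.2 * q) f + ∑ p ∈ good, SPd X s M (p.1 * q) (p.2 * q) f =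
      ∑ p ∈ P, SPd X s M (p.1 * q) (p.2 * q) f := by
    rw [hbad, hgood]
    exact Finset.sum_filter_add_sum_filter_not _ _ _
  have hS3 : ∑ p ∈ bad, SPd X s M (p.1 * q) (p.2 * q) f ≤ δ ^ 2 * ((K : ℝ) ^ 2 * X) / 4 := by
    calc ∑ p ∈ bad, SPd X s M (p.1 * q) (p.2 * q) f ≤ ∑ _p ∈ bad, 4 * (X : ℝ) :=
          Finset.sum_le_sum fun p _ => LL8_triv X s M hM _ _ f hf
      _ = bad.card * (4 * X) := by rw [sum_const, nsmul_eq_mul]
      _ ≤ (4 * (K : ℝ) ^ 2 / G) * (4 * X) := by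
          refine mul_le_mul_of_nonneg_right ?_ (by positivity)
          rw [hbad, hP]
          exact LL6_gcd K G hG1
      _ ≤ δ ^ 2 * ((K : ℝ) ^ 2 * X) / 4 := by
          rw [div_mul_eq_mul_div, div_le_div_iff₀ hG0 (by norm_num)]
          have h1 : 0 ≤ (K : ℝ) ^ 2 * X := by positivity
          nlinarith [mul_le_mul_of_nonneg_right hG64 h1]
  have hS4 : (K : ℝ) ^ 2 * (δ ^ 2 * X / 4) ≤ ∑ p ∈ good, max 0 (SPd X s M (p.1 * q) (p.2 * q) f) := by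
    calc (K : ℝ) ^ 2 * (δ ^ 2 * X / 4) = δ ^ 2 * ((K : ℝ) ^ 2 * X) / 2 - δ ^ 2 * ((K : ℝ) ^ 2 * X) / 4 := by ring
      _ ≤ ∑ p ∈ good, SPd X s M (p.1 * q) (p.2 * q) f := by linarith
      _ ≤ ∑ p ∈ good, max 0 (SPd X s M (p.1 * q) (p.2 * q) f) := Finset.sum_le_sum fun p _ => le_max_right _ _
  have hS5 := ll8_jen good (fun p => max 0 (SPd X s M (p.1 * q) (p.2 * q) f)) (fun p _ => le_max_left _ _) (2 ^ s) hn1
    ((K : ℝ) ^ 2) (δ ^ 2 * X / 4) (by positivity) (by positivity) (by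
      have h1 : good.card ≤ K * K := by
        rw [hgood, ← hPcard]
        exact card_filter_le _ _
      have h2 : (good.card : ℝ) ≤ K * K := by exact_mod_cast h1
      rw [sq]
      exact h2) hS4
  -- one pair
  have hpair : ∀ p ∈ good, (max 0 (SPd X s M (p.1 * q) (p.2 * q) f)) ^ (2 ^ s) ≤
      C7 * (X : ℝ) ^ (2 ^ s - 1) * (F p (Nat.gcd p.1 p.2) + X * (3 * δ ^ (D + 3))) := by
    intro p hp
    rw [hgood, mem_filter, not_lt] at hp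
    have hp' := hPmem p hp.1
    have hp'' := hp'
    rw [mem_Ioc, mem_Ioc] at hp''
    have h1 := hC7 X M K H R p.1 p.2 q hX1 hM hK hH1 hR1 hp'.1 hp'.2 (ll8_four _ _ _ (hγR _ hp.2)) h2qKM
      (hbH p.1 p.2 hp''.1.2 hp''.2.2) hKH f hf
    refine h1.trans (mul_le_mul_of_nonneg_left ?_ (by positivity))
    rw [hF]
    show (MQ X _ f).re + _ ≤ (MQ X _ f).re + _
    refine add_le_add le_rfl (mul_le_mul_of_nonneg_left ?_ hX0.le)
    rw [div_le_iff₀ hM0]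
    have h2 : (Nat.gcd p.1 p.2 : ℝ) * δ ^ 9 ≤ 1 := by
      refine le_trans (mul_le_mul_of_nonneg_right ?_ (by positivity)) hG9
      exact_mod_cast hp.2
    have h3 : (Nat.gcd p.1 p.2 : ℝ) * R / K ≤ δ ^ (D + 3) * M := by
      rw [div_le_iff₀ hK0]
      calc (Nat.gcd p.1 p.2 : ℝ) * R ≤ Nat.gcd p.1 p.2 * (δ ^ (D + 12 + 2) * X) :=
            mul_le_mul_of_nonneg_left hRle (by positivity)
        _ = (Nat.gcd p.1 p.2 * δ ^ 9) * (δ ^ (D + 3) * (δ ^ 2 * X)) := by ring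
        _ ≤ 1 * (δ ^ (D + 3) * (K * M)) :=
            mul_le_mul h2 (mul_le_mul_of_nonneg_left hkm (by positivity)) (by positivity) (by norm_num)
        _ = δ ^ (D + 3) * M * K := by ring
    have h4 : δ ^ (D + 12) * M ≤ δ ^ (D + 3) * M :=
      mul_le_mul_of_nonneg_right (hpow (D + 3) (D + 12) (by omega)) hM0.le
    have h5 : (K : ℝ) * H = H * K := mul_comm _ _
    rw [h5]
    linarith
  have hS6 : (K : ℝ) ^ 2 * (δ ^ 2 * X / 4) ^ (2 ^ s) ≤ C7 * (X : ℝ) ^ (2 ^ s - 1) *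
      (∑ p ∈ good, F p (Nat.gcd p.1 p.2) + (K : ℝ) ^ 2 * X * (3 * δ ^ (4 * 2 ^ s + c + 3))) := by
    refine hS5.trans ((Finset.sum_le_sum hpair).trans ?_)
    rw [← Finset.mul_sum, Finset.sum_add_distrib, sum_const, nsmul_eq_mul]
    refine mul_le_mul_of_nonneg_left (add_le_add le_rfl ?_) (by positivity)
    rw [← hD]
    have h1 : (good.card : ℝ) ≤ (K : ℝ) ^ 2 := by
      have h1 : good.card ≤ K * K := by
        rw [hgood, ← hPcard]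
        exact card_filter_le _ _
      have h2 : (good.card : ℝ) ≤ K * K := by exact_mod_cast h1
      rw [sq]
      exact h2
    calc (good.card : ℝ) * (X * (3 * δ ^ (D + 3))) ≤ (K : ℝ) ^ 2 * (X * (3 * δ ^ (D + 3))) :=
          mul_le_mul_of_nonneg_right h1 (by positivity)
      _ = (K : ℝ) ^ 2 * X * (3 * δ ^ (D + 3)) := by ring
  have hS7 := ll8_fin δ hδ hδ2 (2 ^ s) c hn1 C7 hC71 hc ((K : ℝ) ^ 2) X _ (by positivity) hX0 hS6
  rw [← hD] at hS7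
  -- pigeonhole
  obtain ⟨γ, hγ, hγ2⟩ := ll8_pig P G hG1 F hF0 hgcd (δ ^ (D + 12) * ((K : ℝ) ^ 2 * X)) (by
    rw [← hgood]
    refine le_trans ?_ hS7
    calc (G : ℝ) * (δ ^ (D + 12) * ((K : ℝ) ^ 2 * X)) = (G * δ ^ 9) * (δ ^ (D + 3) * ((K : ℝ) ^ 2 * X)) := by ring
      _ ≤ 1 * (δ ^ (D + 1) * ((K : ℝ) ^ 2 * X)) := by
          refine mul_le_mul hG9 ?_ (by positivity) (by norm_num)
          exact mul_le_mul_of_nonneg_right (hpow (D + 1) (D + 3) (by omega)) (by positivity)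
      _ = _ := one_mul _)
  rw [mem_Icc] at hγ
  refine ⟨γ, hγ.1, ?_, hγR γ hγ.2, ?_⟩
  · have h1 : (γ : ℝ) ≤ G := by exact_mod_cast hγ.2
    refine h1.trans (hGle.trans ?_)
    refine pow_le_pow_right₀ ?_ (by omega)
    rw [le_div_iff₀ hδ]
    linarith
  · rw [hF] at hγ2
    exact hγ2

end Pool.Agent.Lib.H88U
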